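import Mathlib
import Pool.Agent.Lib.MP_369a91_nt.Weights

/-!
Counting integers satisfying periodic conditions modulo a set of primes, and the level of the
lower bound sieve of Brun-Hooley type.
-/

set_option autoImplicit false

namespace Pool.Agent.Lib.QuadParity

open Finset Pool.Agent.Lib.MP_369a91_nt

/-- a periodic family of conditions -/
def Per (bad : ℕ → ℕ → Prop) : Prop := ∀ q s : ℕ, bad q s ↔ bad q (s % q)

theorem Per.mod {bad : ℕ → ℕ → Prop} (h : Per bad) {q m : ℕ} (hqm : q ∣ m) (s : ℕ) :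
    bad q s ↔ bad q (s % m) := by
  rw [h q s, h q (s % m), Nat.mod_mod_of_dvd s hqm]

/-- number of bad residues -/
noncomputable def nb (bad : ℕ → ℕ → Prop) (q : ℕ) : ℕ :=
  open Classical in ((Finset.range q).filter (fun s => bad q s)).card

theorem card_all_bad (bad : ℕ → ℕ → Prop) (hper : Per bad) (D : Finset ℕ)
    (hD : ∀ q ∈ D, q.Prime) :
    open Classical in ((Finset.range (∏ q ∈ D, q)).filter (fun s => ∀ q ∈ D, bad q s)).card =
      ∏ q ∈ D, nb bad q := by
  classical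
  induction D using Finset.induction with
  | empty => simp
  | insert q D hq ih =>
    rw [Finset.prod_insert hq, Finset.prod_insert hq, ← ih (fun p hp => hD p (by simp [hp]))]
    set P := ∏ p ∈ D, p with hP
    have hqp : q.Prime := hD q (by simp)
    have hPpos : 0 < P := Finset.prod_pos (fun p hp => (hD p (by simp [hp])).pos)
    have hcop : Nat.Coprime q P := by
      rw [hP]
      apply Nat.Coprime.prod_right
      intro p hp
      exact (Nat.coprime_primes hqp (hD p (by simp [hp]))).2 (by rintro rfl; exact hq hp)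
    unfold nb
    rw [← Finset.card_product]
    have hdvd : ∀ p ∈ D, p ∣ P := fun p hp => Finset.dvd_prod_of_mem _ hp
    apply Finset.card_bij (fun s _ => (s % q, s % P))
    · intro s hs
      rw [Finset.mem_filter, Finset.mem_range] at hs
      rw [Finset.mem_product, Finset.mem_filter, Finset.mem_filter, Finset.mem_range,
        Finset.mem_range]
      refine ⟨⟨Nat.mod_lt _ hqp.pos, (hper q s).1 (hs.2 q (by simp))⟩,
        ⟨Nat.mod_lt _ hPpos, fun p hp => ((hper.mod (hdvd p hp) s).1 (hs.2 p (by simp [hp])))⟩⟩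
    · intro s hs s' hs' h
      rw [Finset.mem_filter, Finset.mem_range] at hs hs'
      rw [Prod.mk.injEq] at h
      have h1 : s ≡ s' [MOD q * P] := (Nat.modEq_and_modEq_iff_modEq_mul hcop).1 ⟨h.1, h.2⟩
      exact Nat.ModEq.eq_of_lt_of_lt h1 hs.1 hs'.1
    · rintro ⟨u, v⟩ huv
      rw [Finset.mem_product, Finset.mem_filter, Finset.mem_filter, Finset.mem_range,
        Finset.mem_range] at huv
      obtain ⟨⟨hu, hbu⟩, ⟨hv, hbv⟩⟩ := huv
      simp only at hu hbu hv hbv
      obtain ⟨k, hk1, hk2⟩ := Nat.chineseRemainder hcop u v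
      refine ⟨k % (q * P), ?_, ?_⟩
      · rw [Finset.mem_filter, Finset.mem_range]
        refine ⟨Nat.mod_lt _ (Nat.mul_pos hqp.pos hPpos), ?_⟩
        intro p hp
        have hk1' : k % q = u := by rw [hk1]; exact Nat.mod_eq_of_lt hu
        have hk2' : k % P = v := by rw [hk2]; exact Nat.mod_eq_of_lt hv
        rcases Finset.mem_insert.1 hp with h | h
        · subst h
          rw [← hper.mod (Dvd.intro _ rfl) k, hper p k, hk1']
          exact hbu
        · rw [← hper.mod (Dvd.dvd.mul_left (hdvd p h) q) k, hper.mod (hdvd p h) k, hk2']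
          exact hbv p h
      · rw [Prod.mk.injEq]
        constructor
        · rw [Nat.mod_mul_right_mod]; rw [hk1]; exact Nat.mod_eq_of_lt hu
        · rw [Nat.mod_mul_left_mod]; rw [hk2]; exact Nat.mod_eq_of_lt hv

theorem abs_count_range (e v N : ℕ) (he : 0 < e) :
    |(((Finset.range N).filter (fun n => n ≡ v [MOD e])).card : ℝ) - N / e| ≤ 1 := by
  have h1 : ((Finset.range N).filter (fun n => n ≡ v [MOD e])).card = N.count (· ≡ v [MOD e]) := by
    rw [Nat.count_eq_card_filter_range]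
  rw [h1, Nat.count_modEq_card N he v]
  have he' : (0 : ℝ) < e := by exact_mod_cast he
  have h2 : (N : ℝ) = e * ((N / e : ℕ) : ℝ) + ((N % e : ℕ) : ℝ) := by
    exact_mod_cast (Nat.div_add_mod N e).symm
  have h3 : (N : ℝ) / e = ((N / e : ℕ) : ℝ) + ((N % e : ℕ) : ℝ) / e := by
    rw [div_eq_iff he'.ne', add_mul, div_mul_cancel₀ _ he'.ne']
    linarith
  have h4 : ((N % e : ℕ) : ℝ) / e < 1 := by
    rw [div_lt_one he']
    exact_mod_cast Nat.mod_lt N he
  have h5 : 0 ≤ ((N % e : ℕ) : ℝ) / e := by positivity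
  push_cast
  rw [h3, abs_le]
  split_ifs <;> push_cast <;> constructor <;> linarith

theorem count_bad (bad : ℕ → ℕ → Prop) (hper : Per bad) (D : Finset ℕ)
    (hD : ∀ q ∈ D, q.Prime) (W : ℕ) :
    open Classical in
    |(((Finset.range W).filter (fun s => ∀ q ∈ D, bad q s)).card : ℝ) -
      W * ∏ q ∈ D, ((nb bad q : ℝ) / q)| ≤ ∏ q ∈ D, (nb bad q : ℝ) := by
  classical
  set P := ∏ p ∈ D, p with hP
  have hPpos : 0 < P := Finset.prod_pos (fun p hp => (hD p hp).pos)
  have hdvd : ∀ p ∈ D, p ∣ P := fun p hp => Finset.dvd_prod_of_mem _ hp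
  set A := (Finset.range P).filter (fun s => ∀ q ∈ D, bad q s) with hA
  have hAcard : A.card = ∏ q ∈ D, nb bad q := card_all_bad bad hper D hD
  have h1 : ((Finset.range W).filter (fun s => ∀ q ∈ D, bad q s)).card =
      ∑ v ∈ A, ((Finset.range W).filter (fun n => n ≡ v [MOD P])).card := by
    have h2 : ∀ s ∈ (Finset.range W).filter (fun s => ∀ q ∈ D, bad q s), s % P ∈ A := by
      intro s hs
      rw [Finset.mem_filter] at hs
      rw [hA, Finset.mem_filter, Finset.mem_range]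
      exact ⟨Nat.mod_lt _ hPpos, fun q hq => (hper.mod (hdvd q hq) s).1 (hs.2 q hq)⟩
    rw [Finset.card_eq_sum_card_fiberwise h2]
    apply Finset.sum_congr rfl
    intro v hv
    rw [hA, Finset.mem_filter, Finset.mem_range] at hv
    congr 1
    ext s
    rw [Finset.mem_filter, Finset.mem_filter, Finset.mem_filter]
    constructor
    · rintro ⟨⟨h3, h4⟩, h5⟩
      refine ⟨h3, ?_⟩
      rw [Nat.ModEq, h5, Nat.mod_eq_of_lt hv.1]
    · rintro ⟨h3, h4⟩
      rw [Nat.ModEq, Nat.mod_eq_of_lt hv.1] at h4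
      refine ⟨⟨h3, ?_⟩, h4⟩
      intro q hq
      rw [hper.mod (hdvd q hq) s, h4]
      exact hv.2 q hq
  rw [h1]
  push_cast
  have h3 : (W : ℝ) * ∏ q ∈ D, ((nb bad q : ℝ) / q) = ∑ v ∈ A, (W : ℝ) / P := by
    rw [Finset.sum_const, hAcard, Finset.prod_div_distrib, nsmul_eq_mul, hP]
    push_cast
    ring
  rw [h3, ← Finset.sum_sub_distrib]
  refine (Finset.abs_sum_le_sum_abs _ _).trans ?_
  calc ∑ v ∈ A, |(((Finset.range W).filter (fun n => n ≡ v [MOD P])).card : ℝ) - W / P| ≤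
      ∑ v ∈ A, (1 : ℝ) := Finset.sum_le_sum (fun v _ => abs_count_range P v W hPpos)
    _ = ∏ q ∈ D, (nb bad q : ℝ) := by
      rw [Finset.sum_const, hAcard, nsmul_eq_mul, mul_one]
      push_cast
      rfl

/-- Lower bound for the mean value of the lower weights, with varying bounds. -/
theorem mean_lower' (Pr : ℕ → Finset ℕ) (r : ℕ → ℕ)
    (hdis : ∀ t, Disjoint (PiU Pr t) (Pr t)) (hr : ∀ t, Even (r t)) (h : ℕ → ℝ)
    (h0 : ∀ q, 0 ≤ h q) (h1 : ∀ q, h q ≤ 1) (v : ℕ → ℝ) (hv : ∀ t, 0 < v t)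
    (hV : ∀ t, v t ≤ ∏ q ∈ Pr t, (1 - h q)) (T : ℕ) (ε : ℕ → ℝ)
    (hε : ∀ t < T, es (Pr t) h (r t + 1) ≤ ε t * v t) (t : ℕ) (ht : t ≤ T) :
    ∏ i ∈ Finset.range t, v i ≤ ev (Uw Pr r t) (PiU Pr t) h ∧
    ev (Uw Pr r t) (PiU Pr t) h * (1 - ∑ i ∈ Finset.range t, ε i) ≤
      ev (Lw Pr r t) (PiU Pr t) h := by
  classical
  induction t with
  | zero =>
    rw [ev_zero, ev_zero]
    simp [Lw, Uw]
  | succ t ih =>
    obtain ⟨ihu, ihl⟩ := ih (by omega)
    rw [ev_Lw_succ Pr r hdis, ev_Uw_succ Pr r hdis]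
    set l := ev (Lw Pr r t) (PiU Pr t) h
    set u := ev (Uw Pr r t) (PiU Pr t) h
    have hb := bonferroni (Pr t) h h0 h1
    have hA := hb.1 (r t) (hr t)
    have hvA : v t ≤ tr (Pr t) h (r t) := (hV t).trans hA
    set A := tr (Pr t) h (r t)
    have hC := hε t (by omega)
    set C := es (Pr t) h (r t + 1) with hCdef
    have hC0 : 0 ≤ C := es_nonneg _ _ h0 _
    have hu0 : 0 < u := lt_of_lt_of_le (Finset.prod_pos (fun i _ => hv i)) ihu
    have hvt := hv t
    have hεt : 0 ≤ ε t := by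
      by_contra hcon
      push Not at hcon
      have : ε t * v t < 0 := mul_neg_of_neg_of_pos hcon hvt
      linarith
    constructor
    · rw [Finset.prod_range_succ]
      exact mul_le_mul ihu hvA hvt.le hu0.le
    · rw [Finset.sum_range_succ]
      have hCA : C ≤ ε t * A := hC.trans (mul_le_mul_of_nonneg_left hvA hεt)
      have e1 : u * (1 - ∑ i ∈ Finset.range t, ε i) * A ≤ l * A :=
        mul_le_mul_of_nonneg_right ihl (by linarith)
      have e2 : u * C ≤ u * (ε t * A) := mul_le_mul_of_nonneg_left hCA hu0.le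
      nlinarith

/-- majorant of the weights -/
noncomputable def Bw (Pr : ℕ → Finset ℕ) (r : ℕ → ℕ) : ℕ → Finset ℕ → ℝ
  | 0 => fun _ => 1
  | (t + 1) => fun D => Bw Pr r t (D \ Pr t) * (if (D ∩ Pr t).card ≤ r t + 1 then 1 else 0)

theorem Bw_nonneg (Pr : ℕ → Finset ℕ) (r : ℕ → ℕ) (t : ℕ) (D : Finset ℕ) :
    0 ≤ Bw Pr r t D := by
  induction t generalizing D with
  | zero => simp [Bw]
  | succ t ih =>
    simp only [Bw]
    apply mul_nonneg (ih _)
    split_ifs <;> norm_num

theorem abs_Uw_le_Bw (Pr : ℕ → Finset ℕ) (r : ℕ → ℕ) (t : ℕ) (D : Finset ℕ) :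
    |Uw Pr r t D| ≤ Bw Pr r t D := by
  induction t generalizing D with
  | zero => simp [Uw, Bw]
  | succ t ih =>
    simp only [Uw, Bw]
    rw [abs_mul]
    apply mul_le_mul (ih _) _ (abs_nonneg _) (Bw_nonneg _ _ _ _)
    unfold aw
    split_ifs with h1 h2
    · rw [abs_pow]; simp
    · omega
    · simp
    · simp

theorem abs_Lw_le_Bw (Pr : ℕ → Finset ℕ) (r : ℕ → ℕ) (t : ℕ) (D : Finset ℕ) :
    |Lw Pr r t D| ≤ Bw Pr r t D := by
  induction t generalizing D with
  | zero => simp [Lw, Bw]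
  | succ t ih =>
    simp only [Lw, Bw]
    by_cases h : (D ∩ Pr t).card ≤ r t
    · have h1 : bw (r t) (D ∩ Pr t) = 0 := by
        unfold bw; rw [if_neg (by omega)]
      rw [h1, mul_zero, sub_zero, abs_mul, if_pos (by omega)]
      exact mul_le_mul (ih _) (abs_aw_le _ _) (abs_nonneg _) (Bw_nonneg _ _ _ _)
    · have h1 : aw (r t) (D ∩ Pr t) = 0 := by
        unfold aw; rw [if_neg h]
      rw [h1, mul_zero, zero_sub, abs_neg, abs_mul]
      apply mul_le_mul (abs_Uw_le_Bw Pr r t _) _ (abs_nonneg _) (Bw_nonneg _ _ _ _)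
      unfold bw
      split_ifs with h2 h3
      · simp
      · omega
      · simp
      · simp

theorem geom_le (y : ℝ) (hy : 0 ≤ y) (m : ℕ) :
    ∑ j ∈ Finset.range (m + 1), y ^ j ≤ (1 + y) ^ m := by
  induction m with
  | zero => simp
  | succ m ih =>
    rw [Finset.sum_range_succ]
    have h1 : y ^ m ≤ (1 + y) ^ m := pow_le_pow_left₀ hy (by linarith) m
    have h2 : y ^ (m + 1) ≤ y * (1 + y) ^ m := by
      rw [pow_succ']
      exact mul_le_mul_of_nonneg_left h1 hy
    calc _ ≤ (1 + y) ^ m + y * (1 + y) ^ m := add_le_add ih h2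
      _ = (1 + y) ^ (m + 1) := by ring

theorem ev_card_le (P : Finset ℕ) (g : ℕ → ℝ) (g0 : ∀ q, 0 ≤ g q) (y : ℝ)
    (hy : ∑ q ∈ P, g q ≤ y) (m : ℕ) :
    ev (fun E => if E.card ≤ m then 1 else 0) P g ≤ (1 + y) ^ m := by
  classical
  have hy0 : 0 ≤ y := le_trans (Finset.sum_nonneg (fun q _ => g0 q)) hy
  refine le_trans ?_ (geom_le y hy0 m)
  have h1 : ev (fun E => if E.card ≤ m then (1 : ℝ) else 0) P g =
      ∑ j ∈ Finset.range (P.card + 1), (if j ≤ m then 1 else 0) * es P g j := by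
    unfold ev
    rw [Finset.sum_powerset]
    apply Finset.sum_congr rfl
    intro j _
    unfold es
    rw [Finset.mul_sum]
    apply Finset.sum_congr rfl
    intro D hD
    rw [Finset.mem_powersetCard] at hD
    simp only [hD.2]
  rw [h1]
  have h2 : ∀ j, (if j ≤ m then (1 : ℝ) else 0) * es P g j ≤ (if j ≤ m then 1 else 0) * y ^ j := by
    intro j
    apply mul_le_mul_of_nonneg_left
    · have h3 := es_le P g g0 j
      have h4 : (1 : ℝ) ≤ (j.factorial : ℝ) := by exact_mod_cast j.factorial_pos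
      refine h3.trans ?_
      rw [div_le_iff₀ (by linarith)]
      have h5 : (∑ q ∈ P, g q) ^ j ≤ y ^ j :=
        pow_le_pow_left₀ (Finset.sum_nonneg (fun q _ => g0 q)) hy j
      have h6 : 0 ≤ y ^ j := pow_nonneg hy0 j
      nlinarith
    · split_ifs <;> norm_num
  refine (Finset.sum_le_sum (fun j _ => h2 j)).trans ?_
  have h3 : ∀ j, 0 ≤ (if j ≤ m then (1 : ℝ) else 0) * y ^ j := by
    intro j
    apply mul_nonneg
    · split_ifs <;> norm_num
    · exact pow_nonneg hy0 j
  have h4 : ∑ j ∈ Finset.range (P.card + 1), (if j ≤ m then (1 : ℝ) else 0) * y ^ j ≤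
      ∑ j ∈ Finset.range (max (P.card + 1) (m + 1)), (if j ≤ m then (1 : ℝ) else 0) * y ^ j := by
    apply Finset.sum_le_sum_of_subset_of_nonneg
    · intro j hj
      rw [Finset.mem_range] at hj ⊢
      exact lt_of_lt_of_le hj (le_max_left _ _)
    · intro j _ _; exact h3 j
  refine h4.trans (le_of_eq ?_)
  have h5 : ∑ j ∈ Finset.range (m + 1), y ^ j =
      ∑ j ∈ Finset.range (m + 1), (if j ≤ m then (1 : ℝ) else 0) * y ^ j := by
    apply Finset.sum_congr rfl
    intro j hj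
    rw [Finset.mem_range] at hj
    rw [if_pos (by omega), one_mul]
  rw [h5]
  symm
  apply Finset.sum_subset
  · intro j hj
    rw [Finset.mem_range] at hj ⊢
    exact lt_of_lt_of_le hj (le_max_right _ _)
  · intro j _ hj
    rw [Finset.mem_range] at hj
    rw [if_neg (by omega), zero_mul]

theorem ev_Bw_le (Pr : ℕ → Finset ℕ) (r : ℕ → ℕ)
    (hdis : ∀ t, Disjoint (PiU Pr t) (Pr t)) (g : ℕ → ℝ) (g0 : ∀ q, 0 ≤ g q) (y : ℕ → ℝ)
    (hy : ∀ i, ∑ q ∈ Pr i, g q ≤ y i) (t : ℕ) :
    0 ≤ ev (Bw Pr r t) (PiU Pr t) g ∧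
    ev (Bw Pr r t) (PiU Pr t) g ≤ ∏ i ∈ Finset.range t, (1 + y i) ^ (r i + 1) := by
  classical
  have hnn : ∀ t, 0 ≤ ev (Bw Pr r t) (PiU Pr t) g := by
    intro t
    unfold ev
    exact Finset.sum_nonneg (fun D _ => mul_nonneg (Bw_nonneg _ _ _ _)
      (Finset.prod_nonneg (fun q _ => g0 q)))
  refine ⟨hnn t, ?_⟩
  induction t with
  | zero => rw [ev_zero]; simp [Bw]
  | succ t ih =>
    rw [PiU_succ, Finset.prod_range_succ]
    have h1 : ev (Bw Pr r (t + 1)) (PiU Pr t ∪ Pr t) g =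
        ev (Bw Pr r t) (PiU Pr t) g * ev (fun E => if E.card ≤ r t + 1 then 1 else 0) (Pr t) g := by
      rw [← ev_mul _ _ _ _ (hdis t)]
      rfl
    rw [h1]
    apply mul_le_mul ih (ev_card_le _ g g0 _ (hy t) _)
    · unfold ev
      apply Finset.sum_nonneg
      intro D _
      apply mul_nonneg
      · show (0 : ℝ) ≤ if D.card ≤ r t + 1 then (1 : ℝ) else 0
        split_ifs <;> norm_num
      · exact Finset.prod_nonneg (fun q _ => g0 q)
    · exact le_trans (hnn t) ih

/-- The general lower bound. -/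
theorem sieve_count (Pr : ℕ → Finset ℕ) (r : ℕ → ℕ)
    (hdis : ∀ t, Disjoint (PiU Pr t) (Pr t)) (hr : ∀ t, Even (r t))
    (hprime : ∀ t, ∀ q ∈ Pr t, q.Prime)
    (bad : ℕ → ℕ → Prop) (hper : Per bad) (g : ℕ → ℝ) (g0 : ∀ q, 0 ≤ g q)
    (hg : ∀ t, ∀ q ∈ Pr t, (nb bad q : ℝ) ≤ g q)
    (y : ℕ → ℝ) (hy : ∀ i, ∑ q ∈ Pr i, g q ≤ y i)
    (v : ℕ → ℝ) (hv : ∀ t, 0 < v t)
    (hV : ∀ t, v t ≤ ∏ q ∈ Pr t, (1 - g q / q)) (T : ℕ) (ε : ℕ → ℝ)
    (hgq : ∀ t, ∀ q ∈ Pr t, g q ≤ q)
    (hε : ∀ t < T, es (Pr t) (fun q => g q / q) (r t + 1) ≤ ε t * v t)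
    (hεsum : ∑ i ∈ Finset.range T, ε i ≤ 1) (W : ℕ) :
    open Classical in
    (W : ℝ) * ((∏ i ∈ Finset.range T, v i) * (1 - ∑ i ∈ Finset.range T, ε i)) -
      ∏ i ∈ Finset.range T, (1 + y i) ^ (r i + 1) ≤
    (((Finset.range W).filter (fun s => ∀ q ∈ PiU Pr T, ¬ bad q s)).card : ℝ) := by
  classical
  set PI := PiU Pr T with hPI
  have hPIprime : ∀ q ∈ PI, q.Prime := by
    intro q hq
    rw [hPI, PiU, Finset.mem_biUnion] at hq
    obtain ⟨i, _, hi⟩ := hq
    exact hprime i q hi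
  have hPImem : ∀ q ∈ PI, ∃ i, q ∈ Pr i := by
    intro q hq
    rw [hPI, PiU, Finset.mem_biUnion] at hq
    obtain ⟨i, _, hi⟩ := hq
    exact ⟨i, hi⟩
  -- the density function
  set h : ℕ → ℝ := fun q => if q ∈ PI then (nb bad q : ℝ) / q else 0 with hh
  set χ : ℕ → ℕ → ℝ := fun s q => if bad q s then 1 else 0 with hχ
  have hχ0 : ∀ s q, 0 ≤ χ s q := by intro s q; simp only [hχ]; split_ifs <;> norm_num
  have hχ1 : ∀ s q, χ s q ≤ 1 := by intro s q; simp only [hχ]; split_ifs <;> norm_num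
  -- lower bound for the count
  have hcount : ∑ s ∈ Finset.range W, ev (Lw Pr r T) PI (χ s) ≤
      (((Finset.range W).filter (fun s => ∀ q ∈ PI, ¬ bad q s)).card : ℝ) := by
    rw [Finset.card_filter]
    push_cast
    apply Finset.sum_le_sum
    intro s _
    refine (sieve_ineq Pr r hdis hr (χ s) (hχ0 s) (hχ1 s) T).1.trans ?_
    split_ifs with hs
    · apply Finset.prod_le_one
      · intro q _; linarith [hχ1 s q]
      · intro q _; linarith [hχ0 s q]
    · push Not at hs
      obtain ⟨q, hq, hqs⟩ := hs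
      apply le_of_eq
      apply Finset.prod_eq_zero hq
      simp only [hχ, if_pos hqs]
      norm_num
  -- evaluation of the sum
  have hsum : ∑ s ∈ Finset.range W, ev (Lw Pr r T) PI (χ s) =
      ∑ D ∈ PI.powerset, Lw Pr r T D *
        (((Finset.range W).filter (fun s => ∀ q ∈ D, bad q s)).card : ℝ) := by
    unfold ev
    rw [Finset.sum_comm]
    apply Finset.sum_congr rfl
    intro D _
    rw [← Finset.mul_sum]
    congr 1
    rw [Finset.card_filter]
    push_cast
    apply Finset.sum_congr rfl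
    intro s _
    split_ifs with hs
    · apply Finset.prod_eq_one
      intro q hq
      simp only [hχ, if_pos (hs q hq)]
    · push Not at hs
      obtain ⟨q, hq, hqs⟩ := hs
      apply Finset.prod_eq_zero hq
      simp only [hχ, if_neg hqs]
  have hmain : (W : ℝ) * ev (Lw Pr r T) PI h - ev (Bw Pr r T) PI g ≤
      ∑ s ∈ Finset.range W, ev (Lw Pr r T) PI (χ s) := by
    rw [hsum]
    unfold ev
    rw [Finset.mul_sum, ← Finset.sum_sub_distrib]
    apply Finset.sum_le_sum
    intro D hD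
    rw [Finset.mem_powerset] at hD
    have h1 := count_bad bad hper D (fun q hq => hPIprime q (hD hq)) W
    have h2 : ∏ q ∈ D, h q = ∏ q ∈ D, ((nb bad q : ℝ) / q) := by
      apply Finset.prod_congr rfl
      intro q hq
      simp only [hh, if_pos (hD hq)]
    rw [h2]
    have h3 : ∏ q ∈ D, (nb bad q : ℝ) ≤ ∏ q ∈ D, g q := by
      apply Finset.prod_le_prod
      · intro q _; positivity
      · intro q hq
        obtain ⟨i, hi⟩ := hPImem q (hD hq)
        exact hg i q hi
    have h3' : 0 ≤ ∏ q ∈ D, (nb bad q : ℝ) := Finset.prod_nonneg (fun q _ => by positivity)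
    have h4 := abs_Lw_le_Bw Pr r T D
    set c := (((Finset.range W).filter (fun s => ∀ q ∈ D, bad q s)).card : ℝ) with hc
    set m := (W : ℝ) * ∏ q ∈ D, ((nb bad q : ℝ) / q) with hm
    have h5 : Lw Pr r T D * (m - c) ≤ Bw Pr r T D * ∏ q ∈ D, g q := by
      calc Lw Pr r T D * (m - c) ≤ |Lw Pr r T D * (m - c)| := le_abs_self _
        _ = |Lw Pr r T D| * |m - c| := abs_mul _ _
        _ ≤ Bw Pr r T D * ∏ q ∈ D, g q := by
          apply mul_le_mul h4 _ (abs_nonneg _) (Bw_nonneg _ _ _ _)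
          rw [abs_sub_comm]
          exact h1.trans h3
    have h6 : (W : ℝ) * (Lw Pr r T D * ∏ q ∈ D, ((nb bad q : ℝ) / q)) = Lw Pr r T D * m := by
      rw [hm]; ring
    rw [h6]
    linarith
  have hh0 : ∀ q, 0 ≤ h q := by
    intro q; simp only [hh]; split_ifs
    · positivity
    · exact le_refl _
  have hhg : ∀ q ∈ PI, h q ≤ g q / q := by
    intro q hq
    simp only [hh, if_pos hq]
    obtain ⟨i, hi⟩ := hPImem q hq
    exact div_le_div_of_nonneg_right (hg i q hi) (by positivity)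
  have hg1 : ∀ t, ∀ q ∈ Pr t, g q / q ≤ 1 := by
    intro t q hq
    have := (hprime t q hq).pos
    rw [div_le_one (by exact_mod_cast this)]
    exact hgq t q hq
  have hh1 : ∀ q, h q ≤ 1 := by
    intro q
    by_cases hq : q ∈ PI
    · obtain ⟨i, hi⟩ := hPImem q hq
      exact (hhg q hq).trans (hg1 i q hi)
    · simp only [hh, if_neg hq]; norm_num
  have hhg' : ∀ t, ∀ q ∈ Pr t, h q ≤ g q / q := by
    intro t q hq
    by_cases hq' : q ∈ PI
    · exact hhg q hq'
    · simp only [hh, if_neg hq']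
      exact div_nonneg (g0 q) (by positivity)
  obtain ⟨m1, m2⟩ := mean_lower' Pr r hdis hr h hh0 hh1 v hv (fun t => by
      refine (hV t).trans ?_
      apply Finset.prod_le_prod
      · intro q hq; linarith [hg1 t q hq]
      · intro q hq; linarith [hhg' t q hq]) T ε (fun t ht => by
      refine le_trans ?_ (hε t ht)
      unfold es
      apply Finset.sum_le_sum
      intro D hD
      rw [Finset.mem_powersetCard] at hD
      apply Finset.prod_le_prod
      · intro q _; exact hh0 q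
      · intro q hq; exact hhg' t q (hD.1 hq)) T le_rfl
  obtain ⟨b0, b1⟩ := ev_Bw_le Pr r hdis g g0 y hy T
  have h7 : (∏ i ∈ Finset.range T, v i) * (1 - ∑ i ∈ Finset.range T, ε i) ≤
      ev (Lw Pr r T) PI h :=
    (mul_le_mul_of_nonneg_right m1 (by linarith)).trans m2
  have h8 := mul_le_mul_of_nonneg_left h7 (Nat.cast_nonneg (α := ℝ) W)
  linarith

end Pool.Agent.Lib.QuadParity
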