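import Mathlib
import Pool.Agent.Lib.MP_bdd9a3_nt.Mertens

/-!
The sum of the reciprocals of the primes between `B` and `B^2` is at most `0.73` for large `B`.
-/

set_option autoImplicit false

namespace Pool.Agent.Lib.QuadParity

open Finset Pool.Agent.Lib.MP_bdd9a3_nt

theorem log_le_two_sqrt (m : ℕ) (hm : 1 ≤ m) : Real.log m ≤ 2 * √((m : ℝ) - 1) := by
  have hm' : (1 : ℝ) ≤ m := by exact_mod_cast hm
  set w := √((m : ℝ) - 1) with hw
  have hw0 : 0 ≤ w := Real.sqrt_nonneg _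
  have hw2 : w ^ 2 = m - 1 := Real.sq_sqrt (by linarith)
  have h1 : (m : ℝ) ≤ (1 + w) ^ 2 := by nlinarith
  calc Real.log m ≤ Real.log ((1 + w) ^ 2) := Real.log_le_log (by linarith) h1
    _ = 2 * Real.log (1 + w) := by rw [Real.log_pow]; norm_num
    _ ≤ 2 * w := by
      have := Real.log_le_sub_one_of_pos (show 0 < 1 + w by linarith)
      linarith

theorem log_div_le (m : ℕ) (hm : 2 ≤ m) :
    Real.log m / ((m : ℝ) * (m - 1)) ≤ 4 * (1 / √((m : ℝ) - 1) - 1 / √(m : ℝ)) := by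
  have hm' : (2 : ℝ) ≤ m := by exact_mod_cast hm
  have h1 := log_le_two_sqrt m (by omega)
  set w := √((m : ℝ) - 1) with hw
  set u := √(m : ℝ) with hu
  have hw0 : 0 < w := Real.sqrt_pos.2 (by linarith)
  have hu0 : 0 < u := Real.sqrt_pos.2 (by linarith)
  have hw2 : w ^ 2 = m - 1 := Real.sq_sqrt (by linarith)
  have hu2 : u ^ 2 = m := Real.sq_sqrt (by linarith)
  have hwu : w ≤ u := Real.sqrt_le_sqrt (by linarith)
  have h2 : 1 / w - 1 / u = 1 / (u * w * (u + w)) := by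
    have : (u - w) * (u + w) = 1 := by nlinarith
    field_simp
    nlinarith
  rw [h2, ← hw2]
  nth_rewrite 2 [← hu2]
  rw [mul_one_div, div_le_div_iff₀ (by positivity) (by positivity)]
  have h3 : Real.log m * (u + w) ≤ 4 * (u * w) := by
    have h4 : 0 ≤ Real.log m := Real.log_nonneg (by linarith)
    calc Real.log m * (u + w) ≤ Real.log m * (2 * u) :=
          mul_le_mul_of_nonneg_left (by linarith) h4
      _ ≤ (2 * w) * (2 * u) := mul_le_mul_of_nonneg_right h1 (by linarith)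
      _ = 4 * (u * w) := by ring
  have h5 : 0 < u * w := by positivity
  calc Real.log m * (u * w * (u + w)) = (Real.log m * (u + w)) * (u * w) := by ring
    _ ≤ (4 * (u * w)) * (u * w) := mul_le_mul_of_nonneg_right h3 h5.le
    _ = 4 * (u ^ 2 * w ^ 2) := by ring

theorem sum_log_div_le (n : ℕ) :
    ∑ m ∈ Finset.Icc 2 n, Real.log m / ((m : ℝ) * (m - 1)) ≤ 4 := by
  have h : ∀ n : ℕ, 1 ≤ n → ∑ m ∈ Finset.Icc 2 n, Real.log m / ((m : ℝ) * (m - 1)) ≤
      4 * (1 - 1 / √(n : ℝ)) := by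
    intro n hn
    induction n, hn using Nat.le_induction with
    | base => simp
    | succ n hn ih =>
      rw [Finset.sum_Icc_succ_top (by omega)]
      have h1 := log_div_le (n + 1) (by omega)
      push_cast at h1 ⊢
      have e : (n : ℝ) + 1 - 1 = n := by ring
      rw [e] at h1 ⊢
      linarith
  rcases Nat.eq_zero_or_pos n with h0 | h0
  · subst h0; simp
  · refine (h n h0).trans ?_
    have : 0 ≤ 1 / √(n : ℝ) := by positivity
    linarith

theorem mert_lower (n : ℕ) (hn : 1 ≤ n) :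
    Real.log n - 5 ≤ ∑ p ∈ (Finset.Icc 1 n).filter Nat.Prime, Real.log p / (p : ℝ) := by
  have h1 := mertens_lower n hn
  have h2 : ∑ p ∈ (Finset.Icc 1 n).filter Nat.Prime, Real.log p / ((p : ℝ) - 1) =
      ∑ p ∈ (Finset.Icc 1 n).filter Nat.Prime, Real.log p / (p : ℝ) +
      ∑ p ∈ (Finset.Icc 1 n).filter Nat.Prime, Real.log p / ((p : ℝ) * (p - 1)) := by
    rw [← Finset.sum_add_distrib]
    apply Finset.sum_congr rfl
    intro p hp
    have hp2 : (2 : ℝ) ≤ p := by exact_mod_cast (Finset.mem_filter.1 hp).2.two_le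
    have h3 : (p : ℝ) - 1 ≠ 0 := by linarith
    have h4 : (p : ℝ) ≠ 0 := by linarith
    field_simp
    ring
  have h3 : ∑ p ∈ (Finset.Icc 1 n).filter Nat.Prime, Real.log p / ((p : ℝ) * (p - 1)) ≤
      ∑ m ∈ Finset.Icc 2 n, Real.log m / ((m : ℝ) * (m - 1)) := by
    apply Finset.sum_le_sum_of_subset_of_nonneg
    · intro p hp
      rw [Finset.mem_filter, Finset.mem_Icc] at hp
      rw [Finset.mem_Icc]
      exact ⟨hp.2.two_le, hp.1.2⟩
    · intro m hm _
      have : (2 : ℝ) ≤ m := by exact_mod_cast (Finset.mem_Icc.1 hm).1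
      apply div_nonneg (Real.log_nonneg (by linarith))
      nlinarith
  have h4 := sum_log_div_le n
  linarith

/-- sum of reciprocals over primes in `(a, b]` -/
noncomputable def rs (a b : ℕ) : ℝ := ∑ q ∈ Finset.Ioc a b, if q.Prime then (1 : ℝ) / q else 0

theorem rs_add (a b c : ℕ) (h1 : a ≤ b) (h2 : b ≤ c) : rs a b + rs b c = rs a c :=
  Finset.sum_Ioc_consecutive _ h1 h2

theorem rs_le (L U : ℕ) (hL : 2 ≤ L) (hLU : L ≤ U) :
    rs L U ≤ (Real.log U - Real.log L + (Real.log 4 + 5)) / Real.log L := by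
  have hLr : (2 : ℝ) ≤ L := by exact_mod_cast hL
  have hlog : 0 < Real.log L := Real.log_pos (by linarith)
  have h1 := mertens_upper U (by omega)
  have h2 := mert_lower L (by omega)
  have h3 : ∑ p ∈ (Finset.Icc 1 U).filter Nat.Prime, Real.log p / (p : ℝ) =
      ∑ p ∈ (Finset.Icc 1 L).filter Nat.Prime, Real.log p / (p : ℝ) +
      ∑ p ∈ (Finset.Ioc L U).filter Nat.Prime, Real.log p / (p : ℝ) := by
    rw [← Finset.sum_union]
    · congr 1
      ext p
      simp only [Finset.mem_filter, Finset.mem_Icc, Finset.mem_union, Finset.mem_Ioc]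
      constructor
      · rintro ⟨⟨h3, h4⟩, h5⟩
        by_cases h6 : p ≤ L
        · left; exact ⟨⟨h3, h6⟩, h5⟩
        · right; exact ⟨⟨by omega, h4⟩, h5⟩
      · rintro (⟨⟨h3, h4⟩, h5⟩ | ⟨⟨h3, h4⟩, h5⟩)
        · exact ⟨⟨h3, by omega⟩, h5⟩
        · exact ⟨⟨by omega, h4⟩, h5⟩
    · rw [Finset.disjoint_left]
      intro p hp hp'
      simp only [Finset.mem_filter, Finset.mem_Icc, Finset.mem_Ioc] at hp hp'
      omega
  have h4 : rs L U * Real.log L ≤ ∑ p ∈ (Finset.Ioc L U).filter Nat.Prime, Real.log p / (p : ℝ) := by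
    unfold rs
    rw [Finset.sum_filter, Finset.sum_mul]
    apply Finset.sum_le_sum
    intro q hq
    rw [Finset.mem_Ioc] at hq
    split_ifs with hp
    · have hq0 : (0 : ℝ) < q := by exact_mod_cast hp.pos
      have h5 : Real.log L ≤ Real.log q := by
        apply Real.log_le_log (by linarith)
        exact_mod_cast hq.1.le
      rw [one_div, inv_mul_eq_div]
      exact div_le_div_of_nonneg_right h5 hq0.le
    · simp
  rw [le_div_iff₀ hlog]
  linarith

theorem rs_range (n : ℕ) (hn : 14 ≤ n) : rs (2 ^ (2 ^ n)) (2 ^ (2 ^ (n + 1))) ≤ 0.73 := by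
  set M := 2 ^ (n - 3) with hM
  have hM1 : 2 ^ n = 8 * M := by
    rw [hM, show (8 : ℕ) = 2 ^ 3 by norm_num, ← pow_add]
    congr 1
    omega
  have hM2 : 2 ^ (n + 1) = 16 * M := by
    rw [pow_succ, hM1]; ring
  have hM3 : 2048 ≤ M := by
    rw [hM, show (2048 : ℕ) = 2 ^ 11 by norm_num]
    exact Nat.pow_le_pow_right (by norm_num) (by omega)
  have hM4 : (2048 : ℝ) ≤ M := by exact_mod_cast hM3
  have hstep : ∀ j : ℕ, 1 ≤ j → rs (2 ^ (j * M)) (2 ^ ((j + 1) * M)) ≤ (1 / j) * 1.0046 := by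
    intro j hj
    have hj' : (1 : ℝ) ≤ j := by exact_mod_cast hj
    have h1 := rs_le (2 ^ (j * M)) (2 ^ ((j + 1) * M)) (by
      calc 2 = 2 ^ 1 := by norm_num
        _ ≤ 2 ^ (j * M) := Nat.pow_le_pow_right (by norm_num) (by nlinarith))
      (Nat.pow_le_pow_right (by norm_num) (by nlinarith))
    refine h1.trans ?_
    push_cast
    rw [Real.log_pow, Real.log_pow]
    push_cast
    have hl1 := Real.log_two_gt_d9
    have hl2 := Real.log_two_lt_d9
    have h4 : Real.log 4 = 2 * Real.log 2 := by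
      rw [show (4 : ℝ) = 2 ^ 2 by norm_num, Real.log_pow]; norm_num
    rw [h4, div_le_iff₀ (by positivity)]
    have e1 : 1 / (j : ℝ) * 1.0046 * ((j : ℝ) * M * Real.log 2) = 1.0046 * (M * Real.log 2) := by
      field_simp
    rw [e1]
    have h5 : (2048 : ℝ) * 0.6931 ≤ M * Real.log 2 := by nlinarith
    nlinarith
  have hmono : ∀ j k : ℕ, j ≤ k → 2 ^ (j * M) ≤ 2 ^ (k * M) := fun j k h =>
    Nat.pow_le_pow_right (by norm_num) (Nat.mul_le_mul_right _ h)
  rw [hM1, hM2]
  rw [← rs_add (2 ^ (8 * M)) (2 ^ (9 * M)) (2 ^ (16 * M)) (hmono _ _ (by norm_num))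
      (hmono _ _ (by norm_num)),
    ← rs_add (2 ^ (9 * M)) (2 ^ (10 * M)) (2 ^ (16 * M)) (hmono _ _ (by norm_num))
      (hmono _ _ (by norm_num)),
    ← rs_add (2 ^ (10 * M)) (2 ^ (11 * M)) (2 ^ (16 * M)) (hmono _ _ (by norm_num))
      (hmono _ _ (by norm_num)),
    ← rs_add (2 ^ (11 * M)) (2 ^ (12 * M)) (2 ^ (16 * M)) (hmono _ _ (by norm_num))
      (hmono _ _ (by norm_num)),
    ← rs_add (2 ^ (12 * M)) (2 ^ (13 * M)) (2 ^ (16 * M)) (hmono _ _ (by norm_num))
      (hmono _ _ (by norm_num)),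
    ← rs_add (2 ^ (13 * M)) (2 ^ (14 * M)) (2 ^ (16 * M)) (hmono _ _ (by norm_num))
      (hmono _ _ (by norm_num)),
    ← rs_add (2 ^ (14 * M)) (2 ^ (15 * M)) (2 ^ (16 * M)) (hmono _ _ (by norm_num))
      (hmono _ _ (by norm_num))]
  have s8 := hstep 8 (by norm_num)
  have s9 := hstep 9 (by norm_num)
  have s10 := hstep 10 (by norm_num)
  have s11 := hstep 11 (by norm_num)
  have s12 := hstep 12 (by norm_num)
  have s13 := hstep 13 (by norm_num)
  have s14 := hstep 14 (by norm_num)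
  have s15 := hstep 15 (by norm_num)
  norm_num at s8 s9 s10 s11 s12 s13 s14 s15
  norm_num
  linarith

end Pool.Agent.Lib.QuadParity
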