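import Mathlib
import Pool.Agent.Lib.QuadParity.Count
import Pool.Agent.Lib.QuadParity.Mert

/-!
A lower bound sieve: integers avoiding at most four residue classes modulo every prime
between `5` and `z`.
-/

set_option autoImplicit false

namespace Pool.Agent.Lib.QuadParity

open Finset Pool.Agent.Lib.MP_369a91_nt

section

variable (n0 : ℕ)

/-- range endpoints -/
def Bd (i : ℕ) : ℕ := 2 ^ (2 ^ (n0 + i))

/-- prime ranges -/
def Pr : ℕ → Finset ℕ
  | 0 => (Finset.Ioc 4 (Bd n0 0)).filter Nat.Prime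
  | (i + 1) => (Finset.Ioc (Bd n0 i) (Bd n0 (i + 1))).filter Nat.Prime

theorem Bd_mono (i : ℕ) : Bd n0 i ≤ Bd n0 (i + 1) := by
  unfold Bd
  apply Nat.pow_le_pow_right (by norm_num)
  exact Nat.pow_le_pow_right (by norm_num) (by omega)

theorem Bd_ge (hn0 : 14 ≤ n0) (i : ℕ) : 65536 ≤ Bd n0 i := by
  unfold Bd
  calc 65536 = 2 ^ 16 := by norm_num
    _ ≤ 2 ^ (2 ^ (n0 + i)) := by
      apply Nat.pow_le_pow_right (by norm_num)
      calc 16 = 2 ^ 4 := by norm_num
        _ ≤ 2 ^ (n0 + i) := Nat.pow_le_pow_right (by norm_num) (by omega)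

theorem Pr_sub (hn0 : 14 ≤ n0) (i : ℕ) :
    Pr n0 i ⊆ (Finset.Ioc 4 (Bd n0 i)).filter Nat.Prime := by
  intro q hq
  cases i with
  | zero => exact hq
  | succ i =>
    simp only [Pr, Finset.mem_filter, Finset.mem_Ioc] at hq ⊢
    have := Bd_ge n0 hn0 i
    exact ⟨⟨by omega, hq.1.2⟩, hq.2⟩

theorem Pr_prime (hn0 : 14 ≤ n0) (i : ℕ) (q : ℕ) (hq : q ∈ Pr n0 i) : q.Prime :=
  (Finset.mem_filter.1 (Pr_sub n0 hn0 i hq)).2

theorem Pr_gt (hn0 : 14 ≤ n0) (i : ℕ) (q : ℕ) (hq : q ∈ Pr n0 i) : 4 < q := by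
  have h1 := Finset.mem_filter.1 (Pr_sub n0 hn0 i hq)
  rw [Finset.mem_Ioc] at h1
  exact h1.1.1

theorem Pr_card (hn0 : 14 ≤ n0) (i : ℕ) : (Pr n0 i).card ≤ Bd n0 i := by
  calc (Pr n0 i).card ≤ ((Finset.Ioc 4 (Bd n0 i)).filter Nat.Prime).card :=
        Finset.card_le_card (Pr_sub n0 hn0 i)
    _ ≤ (Finset.Ioc 4 (Bd n0 i)).card := Finset.card_filter_le _ _
    _ ≤ Bd n0 i := by rw [Nat.card_Ioc]; omega

theorem PiU_Pr (hn0 : 14 ≤ n0) (t : ℕ) :
    PiU (Pr n0) (t + 1) = (Finset.Ioc 4 (Bd n0 t)).filter Nat.Prime := by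
  classical
  induction t with
  | zero =>
    rw [PiU_succ]
    simp [PiU, Pr]
  | succ t ih =>
    rw [PiU_succ, ih]
    ext q
    simp only [Pr, Finset.mem_union, Finset.mem_filter, Finset.mem_Ioc]
    have h1 := Bd_mono n0 t
    have h2 := Bd_ge n0 hn0 t
    constructor
    · rintro (⟨⟨a1, a2⟩, a3⟩ | ⟨⟨a1, a2⟩, a3⟩)
      · exact ⟨⟨a1, by omega⟩, a3⟩
      · exact ⟨⟨by omega, a2⟩, a3⟩
    · rintro ⟨⟨a1, a2⟩, a3⟩
      by_cases h : q ≤ Bd n0 t
      · left; exact ⟨⟨a1, h⟩, a3⟩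
      · right; exact ⟨⟨by omega, a2⟩, a3⟩

theorem Pr_disjoint (hn0 : 14 ≤ n0) (t : ℕ) : Disjoint (PiU (Pr n0) t) (Pr n0 t) := by
  classical
  cases t with
  | zero => simp [PiU]
  | succ t =>
    rw [PiU_Pr n0 hn0, Finset.disjoint_left]
    intro q hq hq'
    simp only [Pr, Finset.mem_filter, Finset.mem_Ioc] at hq hq'
    omega

theorem sum_Pr_le (hn0 : 14 ≤ n0) (i : ℕ) : ∑ q ∈ Pr n0 (i + 1), (4 : ℝ) / q ≤ 2.92 := by
  have h1 := rs_range (n0 + i) (by omega)
  have h2 : ∑ q ∈ Pr n0 (i + 1), (4 : ℝ) / q = 4 * rs (2 ^ (2 ^ (n0 + i))) (2 ^ (2 ^ (n0 + i + 1))) := by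
    unfold rs
    rw [Finset.mul_sum]
    simp only [Pr, Bd]
    rw [Finset.sum_filter]
    apply Finset.sum_congr (by rw [add_assoc])
    intro q _
    split_ifs
    · ring
    · ring
  rw [h2]
  linarith

theorem one_sub_ge (x : ℝ) (h0 : 0 ≤ x) (h1 : x ≤ 1 / 1000) :
    Real.exp (-(1.0011 * x)) ≤ 1 - x := by
  have h2 : 0 < 1 - x := by linarith
  rw [Real.exp_neg]
  rw [inv_le_comm₀ (Real.exp_pos _) h2]
  have h3 : (1 - x)⁻¹ = 1 + x / (1 - x) := by field_simp; ring
  rw [h3]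
  have h4 : x / (1 - x) ≤ 1.0011 * x := by
    rw [div_le_iff₀ h2]; nlinarith
  have h5 := Real.add_one_le_exp (1.0011 * x)
  linarith

theorem exp_bound : (1 / 19 : ℝ) ≤ Real.exp (-(1.0011 * 2.92)) := by
  rw [Real.exp_neg, one_div]
  apply inv_anti₀ (Real.exp_pos _)
  have h1 : Real.exp 3 ≤ 20.1 := by
    have h7 := Real.exp_one_lt_d9
    calc Real.exp 3 = Real.exp 1 ^ 3 := by rw [← Real.exp_nat_mul]; norm_num
      _ ≤ 2.7182818286 ^ 3 := pow_le_pow_left₀ (Real.exp_pos _).le h7.le 3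
      _ ≤ 20.1 := by norm_num
  have h2 : Real.exp (1.0011 * 2.92) * Real.exp 0.0767 ≤ Real.exp 3 := by
    rw [← Real.exp_add]
    apply Real.exp_le_exp.2
    norm_num
  have h3 := Real.add_one_le_exp (0.0767 : ℝ)
  have h4 := Real.exp_pos (1.0011 * 2.92 : ℝ)
  nlinarith

theorem prod_Pr_ge (hn0 : 14 ≤ n0) (i : ℕ) :
    (1 / 19 : ℝ) ≤ ∏ q ∈ Pr n0 (i + 1), (1 - 4 / (q : ℝ)) := by
  have h1 := sum_Pr_le n0 hn0 i
  calc (1 / 19 : ℝ) ≤ Real.exp (-(1.0011 * 2.92)) := exp_bound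
    _ ≤ Real.exp (∑ q ∈ Pr n0 (i + 1), -(1.0011 * (4 / (q : ℝ)))) := by
        apply Real.exp_le_exp.2
        rw [Finset.sum_neg_distrib, ← Finset.mul_sum]
        nlinarith
    _ = ∏ q ∈ Pr n0 (i + 1), Real.exp (-(1.0011 * (4 / (q : ℝ)))) := Real.exp_sum _ _
    _ ≤ ∏ q ∈ Pr n0 (i + 1), (1 - 4 / (q : ℝ)) := by
        apply Finset.prod_le_prod
        · intro q _; exact (Real.exp_pos _).le
        · intro q hq
          simp only [Pr, Finset.mem_filter, Finset.mem_Ioc] at hq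
          have hb := Bd_ge n0 hn0 i
          have hq2 : (65536 : ℝ) ≤ q := by
            have : 65536 ≤ q := by omega
            exact_mod_cast this
          apply one_sub_ge _ (by positivity)
          rw [div_le_div_iff₀ (by linarith) (by norm_num)]
          linarith

theorem prod_Pr0_ge (hn0 : 14 ≤ n0) :
    (1 / 5 : ℝ) ^ (Bd n0 0) ≤ ∏ q ∈ Pr n0 0, (1 - 4 / (q : ℝ)) := by
  calc (1 / 5 : ℝ) ^ (Bd n0 0) ≤ (1 / 5 : ℝ) ^ (Pr n0 0).card := by
        apply pow_le_pow_of_le_one (by norm_num) (by norm_num) (Pr_card n0 hn0 0)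
    _ = ∏ q ∈ Pr n0 0, (1 / 5 : ℝ) := by rw [Finset.prod_const]
    _ ≤ _ := by
        apply Finset.prod_le_prod
        · intro q _; norm_num
        · intro q hq
          have h1 := Pr_gt n0 hn0 0 q hq
          have h2 : (5 : ℝ) ≤ q := by exact_mod_cast h1
          have h3 : 4 / (q : ℝ) ≤ 4 / 5 := div_le_div_of_nonneg_left (by norm_num) (by norm_num) h2
          linarith

end

theorem fact_bound (m : ℕ) :
    (2.92 : ℝ) ^ (9 + 2 * m) / ((9 + 2 * m).factorial : ℝ) ≤ 0.81 * 0.08 ^ m * (1 / 19) := by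
  induction m with
  | zero =>
    norm_num [Nat.factorial]
  | succ m ih =>
    have h1 : 9 + 2 * (m + 1) = (9 + 2 * m) + 1 + 1 := by ring
    rw [h1, Nat.factorial_succ, Nat.factorial_succ]
    push_cast
    have hf : (0 : ℝ) < ((9 + 2 * m).factorial : ℝ) := by exact_mod_cast Nat.factorial_pos _
    rw [div_le_iff₀ hf] at ih
    rw [div_le_iff₀ (by positivity)]
    calc (2.92 : ℝ) ^ (9 + 2 * m + 1 + 1) = 2.92 ^ (9 + 2 * m) * (2.92 ^ 2) := by ring
      _ ≤ (0.81 * 0.08 ^ m * (1 / 19) * ((9 + 2 * m).factorial : ℝ)) * (2.92 ^ 2) :=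
        mul_le_mul_of_nonneg_right ih (by norm_num)
      _ ≤ (0.81 * 0.08 ^ m * (1 / 19) * ((9 + 2 * m).factorial : ℝ)) *
          (0.08 * ((9 + 2 * m + 1 + 1) * (9 + 2 * m + 1))) := by
        apply mul_le_mul_of_nonneg_left _ (by positivity)
        have : (0 : ℝ) ≤ m := by positivity
        nlinarith
      _ = _ := by ring

theorem eps_sum (T : ℕ) : ∑ i ∈ Finset.range T, (0.81 : ℝ) * 0.08 ^ (T - 1 - i) ≤ 0.9 := by
  have h : ∀ T : ℕ, ∑ i ∈ Finset.range T, (0.81 : ℝ) * 0.08 ^ (T - 1 - i) =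
      (0.81 / 0.92) * (1 - 0.08 ^ T) := by
    intro T
    induction T with
    | zero => norm_num
    | succ T ih =>
      rw [Finset.sum_range_succ']
      have h2 : ∑ i ∈ Finset.range T, (0.81 : ℝ) * 0.08 ^ (T + 1 - 1 - (i + 1)) =
          ∑ i ∈ Finset.range T, (0.81 : ℝ) * 0.08 ^ (T - 1 - i) := by
        apply Finset.sum_congr rfl
        intro i _
        congr 2
        omega
      rw [h2, ih]
      simp only [Nat.add_sub_cancel, Nat.sub_zero]
      ring
  rw [h]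
  have : (0 : ℝ) < 0.08 ^ T := by positivity
  nlinarith

theorem F_sum (T : ℕ) : ∑ i ∈ Finset.range T, 2 ^ (i + 1) * (9 + 2 * (T - 1 - i)) ≤ 22 * 2 ^ T := by
  induction T with
  | zero => simp
  | succ T ih =>
    rw [Finset.sum_range_succ]
    have h3 : ∑ i ∈ Finset.range T, 2 ^ (i + 1) * (9 + 2 * (T + 1 - 1 - i)) =
        ∑ i ∈ Finset.range T, 2 ^ (i + 1) * (9 + 2 * (T - 1 - i)) +
        2 * ∑ i ∈ Finset.range T, 2 ^ (i + 1) := by
      rw [Finset.mul_sum, ← Finset.sum_add_distrib]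
      apply Finset.sum_congr rfl
      intro i hi
      rw [Finset.mem_range] at hi
      have h4 : T + 1 - 1 - i = (T - 1 - i) + 1 := by omega
      rw [h4]; ring
    have h4 : ∀ t : ℕ, ∑ i ∈ Finset.range t, 2 ^ (i + 1) + 2 = 2 ^ (t + 1) := by
      intro t
      induction t with
      | zero => simp
      | succ t ih =>
        rw [Finset.sum_range_succ, pow_succ 2 (t + 1)]
        omega
    have h5 := h4 T
    have h6 : T + 1 - 1 - T = 0 := by omega
    rw [h3, h6]
    have h7 : (2 : ℕ) ^ (T + 1) = 2 * 2 ^ T := by ring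
    rw [h7] at h5 ⊢
    omega

theorem G_sum (T : ℕ) : ∑ i ∈ Finset.range T, (9 + 2 * (T - 1 - i)) ≤ 9 * T + 2 * T * T := by
  calc ∑ i ∈ Finset.range T, (9 + 2 * (T - 1 - i)) ≤ ∑ i ∈ Finset.range T, (9 + 2 * T) :=
        Finset.sum_le_sum (fun i _ => by omega)
    _ = 9 * T + 2 * T * T := by
      rw [Finset.sum_const, Finset.card_range, smul_eq_mul]; ring

/-- truncation levels -/
def rr (n0 T : ℕ) : ℕ → ℕ
  | 0 => 2 * Bd n0 0
  | (i + 1) => 8 + 2 * (T - 1 - i)

theorem err_bound (n0 : ℕ) (hn0 : 14 ≤ n0) (T : ℕ) :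
    ∏ i ∈ Finset.range (T + 1), (1 + 4 * (Bd n0 i : ℝ)) ^ (rr n0 T i + 1) ≤
      ((1 + 4 * Bd n0 0) ^ (2 * Bd n0 0 + 1) : ℕ) *
        (2 : ℝ) ^ (22 * 2 ^ (n0 + T) + 3 * (9 * T + 2 * T * T)) := by
  rw [Finset.prod_range_succ', mul_comm]
  push_cast
  apply mul_le_mul
  · simp [rr]
  · calc ∏ i ∈ Finset.range T, (1 + 4 * (Bd n0 (i + 1) : ℝ)) ^ (rr n0 T (i + 1) + 1) ≤
        ∏ i ∈ Finset.range T, (2 : ℝ) ^ ((2 ^ (n0 + (i + 1)) + 3) * (9 + 2 * (T - 1 - i))) := by
          apply Finset.prod_le_prod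
          · intro i _; positivity
          · intro i _
            have h1 : rr n0 T (i + 1) + 1 = 9 + 2 * (T - 1 - i) := by simp only [rr]; omega
            rw [h1, pow_mul]
            apply pow_le_pow_left₀ (by positivity)
            rw [pow_add]
            have h2 := Bd_ge n0 hn0 (i + 1)
            have h3 : (65536 : ℝ) ≤ (Bd n0 (i + 1) : ℝ) := by exact_mod_cast h2
            have h4 : (Bd n0 (i + 1) : ℝ) = 2 ^ (2 ^ (n0 + (i + 1))) := by
              unfold Bd; push_cast; rfl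
            rw [← h4]
            nlinarith
      _ = (2 : ℝ) ^ (∑ i ∈ Finset.range T, (2 ^ (n0 + (i + 1)) + 3) * (9 + 2 * (T - 1 - i))) := by
          rw [Finset.prod_pow_eq_pow_sum]
      _ ≤ _ := by
          apply pow_le_pow_right₀ (by norm_num)
          have h1 : ∑ i ∈ Finset.range T, (2 ^ (n0 + (i + 1)) + 3) * (9 + 2 * (T - 1 - i)) =
              2 ^ n0 * ∑ i ∈ Finset.range T, 2 ^ (i + 1) * (9 + 2 * (T - 1 - i)) +
              3 * ∑ i ∈ Finset.range T, (9 + 2 * (T - 1 - i)) := by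
            rw [Finset.mul_sum, Finset.mul_sum, ← Finset.sum_add_distrib]
            apply Finset.sum_congr rfl
            intro i _
            rw [pow_add]; ring
          rw [h1]
          have h2 := F_sum T
          have h3 := G_sum T
          have h4 : 2 ^ n0 * ∑ i ∈ Finset.range T, 2 ^ (i + 1) * (9 + 2 * (T - 1 - i)) ≤
              2 ^ n0 * (22 * 2 ^ T) := Nat.mul_le_mul_left _ h2
          have h5 : 2 ^ n0 * (22 * 2 ^ T) = 22 * 2 ^ (n0 + T) := by rw [pow_add]; ring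
          omega
  · apply Finset.prod_nonneg
    intro i _; positivity
  · positivity

/-- The sieve bound in raw form. -/
theorem sieve_raw (n0 : ℕ) (hn0 : 14 ≤ n0) (T : ℕ) (bad : ℕ → ℕ → Prop) (hper : Per bad)
    (hb : ∀ q : ℕ, q.Prime → 4 < q → q ≤ Bd n0 T → nb bad q ≤ 4) (W : ℕ) :
    open Classical in
    (W : ℝ) * ((1 / 5) ^ (Bd n0 0) * (1 / 19) ^ T * 0.1) -
      ((1 + 4 * Bd n0 0) ^ (2 * Bd n0 0 + 1) : ℕ) *
        (2 : ℝ) ^ (22 * 2 ^ (n0 + T) + 3 * (9 * T + 2 * T * T)) ≤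
    (((Finset.range W).filter (fun s => ∀ q : ℕ, q.Prime → 4 < q → q ≤ Bd n0 T → ¬ bad q s)).card : ℝ) := by
  classical
  -- truncate the conditions to the primes that matter
  obtain ⟨bad', hbad'⟩ : ∃ b : ℕ → ℕ → Prop, ∀ q s, b q s ↔
      ((q.Prime ∧ 4 < q ∧ q ≤ Bd n0 T) ∧ bad q s) := ⟨_, fun _ _ => Iff.rfl⟩
  have hper' : Per bad' := by
    intro q s
    rw [hbad', hbad', hper q s]
  have hnb : ∀ q, nb bad' q ≤ 4 := by
    intro q
    by_cases hq : q.Prime ∧ 4 < q ∧ q ≤ Bd n0 T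
    · refine le_trans ?_ (hb q hq.1 hq.2.1 hq.2.2)
      unfold nb
      apply Finset.card_le_card
      intro s hs
      rw [Finset.mem_filter] at hs ⊢
      exact ⟨hs.1, ((hbad' q s).1 hs.2).2⟩
    · unfold nb
      have : (Finset.range q).filter (fun s => bad' q s) = ∅ := by
        apply Finset.filter_eq_empty_iff.2
        intro s _ hs
        exact hq ((hbad' q s).1 hs).1
      rw [this]; simp
  set v : ℕ → ℝ := fun i => if i = 0 then (1 / 5) ^ (Bd n0 0) else 1 / 19 with hv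
  set ε : ℕ → ℝ := fun i => if i = 0 then 0 else 0.81 * 0.08 ^ (T - i) with hε
  have hsum : ∑ i ∈ Finset.range (T + 1), ε i ≤ 0.9 := by
    rw [Finset.sum_range_succ']
    simp only [hε, if_true, add_zero, Nat.add_eq_zero_iff, one_ne_zero, and_false, if_false]
    refine le_trans (le_of_eq ?_) (eps_sum T)
    apply Finset.sum_congr rfl
    intro i _
    congr 2
    omega
  have hprodv : ∏ i ∈ Finset.range (T + 1), v i = (1 / 5) ^ (Bd n0 0) * (1 / 19) ^ T := by
    rw [Finset.prod_range_succ']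
    simp only [hv, if_true, Nat.add_eq_zero_iff, one_ne_zero, and_false, if_false,
      Finset.prod_const, Finset.card_range]
    ring
  have hmain := sieve_count (Pr n0) (rr n0 T) (Pr_disjoint n0 hn0) (by
      intro t
      cases t with
      | zero => exact even_two_mul _
      | succ t => simp only [rr]; exact (by decide : Even 8).add (even_two_mul _))
    (Pr_prime n0 hn0) bad' hper' (fun _ => 4) (fun _ => by norm_num)
    (fun t q _ => by exact_mod_cast hnb q)
    (fun i => 4 * (Bd n0 i : ℝ)) (by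
      intro i
      rw [Finset.sum_const, nsmul_eq_mul, mul_comm]
      have := Pr_card n0 hn0 i
      have h2 : ((Pr n0 i).card : ℝ) ≤ (Bd n0 i : ℝ) := by exact_mod_cast this
      linarith) v (by
      intro t
      simp only [hv]
      split_ifs <;> positivity) (by
      intro t
      simp only [hv]
      cases t with
      | zero => rw [if_pos rfl]; exact prod_Pr0_ge n0 hn0
      | succ t => rw [if_neg (by omega)]; exact prod_Pr_ge n0 hn0 t) (T + 1) ε (by
      intro t q hq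
      have := Pr_gt n0 hn0 t q hq
      exact_mod_cast this.le) (by
      intro t ht
      cases t with
      | zero =>
        simp only [hε, if_true, zero_mul]
        apply le_of_eq
        apply es_eq_zero
        have := Pr_card n0 hn0 0
        simp only [rr]
        omega
      | succ t =>
        simp only [hε, hv]
        rw [if_neg (by omega), if_neg (by omega)]
        have h1 := es_le (Pr n0 (t + 1)) (fun q => 4 / (q : ℝ)) (fun q => by positivity)
          (rr n0 T (t + 1) + 1)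
        have h2 := sum_Pr_le n0 hn0 t
        have hr : rr n0 T (t + 1) + 1 = 9 + 2 * (T - 1 - t) := by simp only [rr]; omega
        rw [hr] at h1 ⊢
        refine h1.trans ?_
        have h3 : (∑ q ∈ Pr n0 (t + 1), 4 / (q : ℝ)) ^ (9 + 2 * (T - 1 - t)) ≤
            2.92 ^ (9 + 2 * (T - 1 - t)) := by
          apply pow_le_pow_left₀ _ h2
          exact Finset.sum_nonneg (fun q _ => by positivity)
        have h4 := fact_bound (T - 1 - t)
        have h5 : T - (t + 1) = T - 1 - t := by omega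
        rw [h5]
        refine le_trans ?_ h4
        exact div_le_div_of_nonneg_right h3 (by positivity)) (by linarith) W
  rw [hprodv, PiU_Pr n0 hn0] at hmain
  have herr := err_bound n0 hn0 T
  refine le_trans ?_ (hmain.trans (le_of_eq ?_))
  swap
  · congr 2
    ext s
    simp only [Finset.mem_filter, Finset.mem_Ioc]
    apply and_congr_right
    intro _
    constructor
    · intro h q hq h4 hqB hbad
      exact h q ⟨⟨h4, hqB⟩, hq⟩ ((hbad' q s).2 ⟨⟨hq, h4, hqB⟩, hbad⟩)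
    · intro h q hq hbad
      have hb1 := (hbad' q s).1 hbad
      exact h q hb1.1.1 hb1.1.2.1 hb1.1.2.2 hb1.2
  have h6 : (W : ℝ) * ((1 / 5) ^ (Bd n0 0) * (1 / 19) ^ T * 0.1) ≤
      (W : ℝ) * ((1 / 5) ^ (Bd n0 0) * (1 / 19) ^ T * (1 - ∑ i ∈ Finset.range (T + 1), ε i)) := by
    apply mul_le_mul_of_nonneg_left _ (Nat.cast_nonneg W)
    apply mul_le_mul_of_nonneg_left _ (by positivity)
    linarith
  linarith

end Pool.Agent.Lib.QuadParity
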