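import Mathlib
import Pool.Agent.Lib.QuadParity.Ranges

/-!
Asymptotic form of the lower bound sieve.
-/

set_option autoImplicit false

namespace Pool.Agent.Lib.QuadParity

open Finset

theorem cube_le_two_pow (n : ℕ) (hn : 10 ≤ n) : n ^ 3 ≤ 2 ^ n := by
  induction n, hn using Nat.le_induction with
  | base => norm_num
  | succ n hn ih =>
    have h1 : (n + 1) ^ 3 ≤ 2 * n ^ 3 := by nlinarith [sq_nonneg n, Nat.mul_le_mul hn hn]
    calc (n + 1) ^ 3 ≤ 2 * n ^ 3 := h1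
      _ ≤ 2 * 2 ^ n := Nat.mul_le_mul_left _ ih
      _ = 2 ^ (n + 1) := by ring

open Classical in
/-- the number of `s < 2^(23*2^n)` that avoid all conditions for primes `5 ≤ q ≤ 2^(2^n)` -/
noncomputable def sifted (bad : ℕ → ℕ → Prop) (n : ℕ) : Finset ℕ :=
  (Finset.range (2 ^ (23 * 2 ^ n))).filter
    (fun s => ∀ q : ℕ, q.Prime → 4 < q → q ≤ 2 ^ (2 ^ n) → ¬ bad q s)

theorem mem_sifted {bad : ℕ → ℕ → Prop} {n s : ℕ} : s ∈ sifted bad n ↔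
    s < 2 ^ (23 * 2 ^ n) ∧ ∀ q : ℕ, q.Prime → 4 < q → q ≤ 2 ^ (2 ^ n) → ¬ bad q s := by
  classical
  unfold sifted
  rw [Finset.mem_filter, Finset.mem_range]

theorem sieve_asym : ∃ N0 : ℕ, ∀ n : ℕ, N0 ≤ n → ∀ bad : ℕ → ℕ → Prop, Per bad →
    (∀ q : ℕ, q.Prime → 4 < q → q ≤ 2 ^ (2 ^ n) → nb bad q ≤ 4) →
    (2 : ℝ) ^ (23 * 2 ^ n) ≤ 2 ^ (5 * n) * ((sifted bad n).card : ℝ) := by
  classical
  obtain ⟨n0, hn0⟩ : ∃ n0 : ℕ, n0 = 14 := ⟨_, rfl⟩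
  obtain ⟨B, hB⟩ : ∃ B : ℕ, B = Bd n0 0 := ⟨_, rfl⟩
  obtain ⟨C, hC⟩ : ∃ C : ℕ, C = (1 + 4 * B) ^ (2 * B + 1) := ⟨_, rfl⟩
  have h1 : Filter.Tendsto (fun T : ℕ => ((32 : ℝ) / 19) ^ T) Filter.atTop Filter.atTop :=
    tendsto_pow_atTop_atTop_of_one_lt (by norm_num)
  obtain ⟨T0, hT0⟩ := Filter.eventually_atTop.1
    (h1.eventually_ge_atTop (2 / ((1 / 5 : ℝ) ^ B * 0.1)))
  refine ⟨T0 + n0 + C + 100, ?_⟩
  intro n hn bad hper hb
  obtain ⟨T, hT⟩ : ∃ T : ℕ, n = n0 + T := ⟨n - n0, by omega⟩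
  have hraw := sieve_raw n0 (by omega) T bad hper (by
    intro q hq h4 hqB
    apply hb q hq h4
    rw [hT]
    exact hqB) (2 ^ (23 * 2 ^ n))
  have hcard : (((Finset.range (2 ^ (23 * 2 ^ n))).filter
      (fun s => ∀ q : ℕ, q.Prime → 4 < q → q ≤ Bd n0 T → ¬ bad q s)).card : ℝ) =
      ((sifted bad n).card : ℝ) := by
    congr 2
    ext s
    rw [mem_sifted]
    simp only [Finset.mem_filter, Finset.mem_range]
    have : Bd n0 T = 2 ^ (2 ^ n) := by unfold Bd; rw [hT]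
    rw [this]
  rw [hcard, ← hB, ← hC, ← hT] at hraw
  push_cast at hraw
  have hTT := hT0 T (by omega)
  have hc0 : (0 : ℝ) < (1 / 5 : ℝ) ^ B * 0.1 := by positivity
  -- main term
  have hmain : 2 * (2 : ℝ) ^ (23 * 2 ^ n) ≤
      2 ^ (5 * n) * ((2 : ℝ) ^ (23 * 2 ^ n) * ((1 / 5) ^ B * (1 / 19) ^ T * 0.1)) := by
    rw [div_le_iff₀ hc0] at hTT
    have h2 : (2 : ℝ) ^ (5 * n) = 2 ^ (5 * n0) * 32 ^ T := by
      rw [hT, mul_add, pow_add, pow_mul 2 5 T]; norm_num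
    have h3 : (1 : ℝ) ≤ 2 ^ (5 * n0) := one_le_pow₀ (by norm_num)
    have h4 : (32 : ℝ) ^ T * (1 / 19) ^ T = (32 / 19) ^ T := by
      rw [← mul_pow]; norm_num
    calc 2 * (2 : ℝ) ^ (23 * 2 ^ n) ≤
        ((32 / 19) ^ T * ((1 / 5 : ℝ) ^ B * 0.1)) * (2 : ℝ) ^ (23 * 2 ^ n) :=
          mul_le_mul_of_nonneg_right hTT (by positivity)
      _ = 1 * ((32 / 19) ^ T * ((1 / 5 : ℝ) ^ B * 0.1)) * (2 : ℝ) ^ (23 * 2 ^ n) := by ring
      _ ≤ 2 ^ (5 * n0) * ((32 / 19) ^ T * ((1 / 5 : ℝ) ^ B * 0.1)) * (2 : ℝ) ^ (23 * 2 ^ n) := by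
          apply mul_le_mul_of_nonneg_right _ (by positivity)
          exact mul_le_mul_of_nonneg_right h3 (by positivity)
      _ = _ := by rw [h2, ← h4]; ring
  -- error term
  have herr : (2 : ℝ) ^ (5 * n) * ((C : ℝ) * 2 ^ (22 * 2 ^ n + 3 * (9 * T + 2 * T * T))) ≤
      (2 : ℝ) ^ (23 * 2 ^ n) := by
    have hC1 : (C : ℝ) ≤ 2 ^ C := by exact_mod_cast (Nat.lt_two_pow_self).le
    calc (2 : ℝ) ^ (5 * n) * ((C : ℝ) * 2 ^ (22 * 2 ^ n + 3 * (9 * T + 2 * T * T))) ≤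
        (2 : ℝ) ^ (5 * n) * (2 ^ C * 2 ^ (22 * 2 ^ n + 3 * (9 * T + 2 * T * T))) := by
          apply mul_le_mul_of_nonneg_left _ (by positivity)
          exact mul_le_mul_of_nonneg_right hC1 (by positivity)
      _ = (2 : ℝ) ^ (5 * n + (C + (22 * 2 ^ n + 3 * (9 * T + 2 * T * T)))) := by
          rw [pow_add _ (5 * n), pow_add _ C]
      _ ≤ _ := by
          apply pow_le_pow_right₀ (by norm_num)
          have h5 := cube_le_two_pow n (by omega)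
          have hTn : T ≤ n := by omega
          have hCn : C ≤ n := by omega
          have h100 : 100 ≤ n := by omega
          have h6 : T * T ≤ n * n := Nat.mul_le_mul hTn hTn
          have h7 : 100 * (n * n) ≤ n ^ 3 := by
            calc 100 * (n * n) ≤ n * (n * n) := Nat.mul_le_mul_right _ h100
              _ = n ^ 3 := by ring
          have h8 : 100 * n ≤ n * n := Nat.mul_le_mul_right _ h100
          nlinarith
  have h9 : (0 : ℝ) < 2 ^ (5 * n) := by positivity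
  have h10 := mul_le_mul_of_nonneg_left hraw h9.le
  rw [mul_sub] at h10
  linarith

end Pool.Agent.Lib.QuadParity
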