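import Mathlib
import Pool.Agent.Lib.QuadParity.Count

/-!
The quadratic polynomials `l` and `E` attached to a quadratic polynomial `f`, a prime `k` and a
root `x0` of `f` modulo `a k`.
-/

set_option autoImplicit false

namespace Pool.Agent.Lib.QuadParity

open Finset

/-- the quadratic polynomial -/
def qf (a b c x : ℤ) : ℤ := a * x ^ 2 + b * x + c

/-- `x1` as a function of the parameter -/
def X1 (a k x0 u : ℤ) : ℤ := x0 + a * k * u

/-- the cofactor `l` -/
def Lq (a b k x0 l0 u : ℤ) : ℤ := l0 + (2 * a * x0 + b) * u + a ^ 2 * k * u ^ 2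

/-- the cofactor `E` -/
def Eq' (a b k x0 l0 u : ℤ) : ℤ := a * (k + Lq a b k x0 l0 u) + 2 * a * X1 a k x0 u + b

theorem id1 (a b c k x0 l0 u : ℤ) (h : qf a b c x0 = a * k * l0) :
    qf a b c (X1 a k x0 u) = a * k * Lq a b k x0 l0 u := by
  unfold qf at h
  unfold qf X1 Lq
  linear_combination h

theorem id2 (a b c k x0 l0 u : ℤ) (h : qf a b c x0 = a * k * l0) :
    qf a b c (X1 a k x0 u + k) = k * Eq' a b k x0 l0 u := by
  have h1 := id1 a b c k x0 l0 u h
  unfold qf at h1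
  unfold qf Eq'
  linear_combination h1

theorem id3 (a b c k x0 l0 u : ℤ) (h : qf a b c x0 = a * k * l0) :
    qf a b c (X1 a k x0 u + Lq a b k x0 l0 u) = Lq a b k x0 l0 u * Eq' a b k x0 l0 u := by
  have h1 := id1 a b c k x0 l0 u h
  unfold qf at h1
  unfold qf Eq'
  linear_combination h1

theorem Lq_sub (a b k x0 l0 u w : ℤ) :
    (u - w) ∣ Lq a b k x0 l0 u - Lq a b k x0 l0 w :=
  ⟨(2 * a * x0 + b) + a ^ 2 * k * (u + w), by unfold Lq; ring⟩

theorem Eq'_sub (a b k x0 l0 u w : ℤ) :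
    (u - w) ∣ Eq' a b k x0 l0 u - Eq' a b k x0 l0 w := by
  obtain ⟨d, hd⟩ := Lq_sub a b k x0 l0 u w
  refine ⟨a * d + 2 * a * (a * k), ?_⟩
  unfold Eq' X1
  linear_combination a * hd

theorem prod_dvd_iff (a b k x0 l0 : ℤ) (m u w : ℤ) (h : m ∣ u - w) :
    m ∣ Lq a b k x0 l0 u * Eq' a b k x0 l0 u ↔ m ∣ Lq a b k x0 l0 w * Eq' a b k x0 l0 w := by
  obtain ⟨d, hd⟩ := h.trans (Lq_sub a b k x0 l0 u w)
  obtain ⟨e, he⟩ := h.trans (Eq'_sub a b k x0 l0 u w)
  have h1 : m ∣ Lq a b k x0 l0 u * Eq' a b k x0 l0 u - Lq a b k x0 l0 w * Eq' a b k x0 l0 w := by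
    refine ⟨d * Eq' a b k x0 l0 u + Lq a b k x0 l0 w * e, ?_⟩
    linear_combination (Eq' a b k x0 l0 u) * hd + (Lq a b k x0 l0 w) * he
  constructor
  · intro h2
    have := dvd_sub h2 h1
    simpa using this
  · intro h2
    have := dvd_add h1 h2
    simpa using this

/-- at most two roots of a quadratic polynomial -/
theorem quad_roots (q : ℕ) (hq : q.Prime) (h4 : 4 < q) (α2 α1 α0 s0 : ℤ)
    (h : ¬ ((q : ℤ) ∣ α2 ∧ (q : ℤ) ∣ α1 ∧ (q : ℤ) ∣ α0)) :
    open Classical in ((Finset.range q).filter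
      (fun s : ℕ => (q : ℤ) ∣ α2 * (144 * s + s0) ^ 2 + α1 * (144 * s + s0) + α0)).card ≤ 2 := by
  classical
  have := Fact.mk hq
  set p : Polynomial (ZMod q) := Polynomial.C (α2 : ZMod q) * Polynomial.X ^ 2 +
    Polynomial.C (α1 : ZMod q) * Polynomial.X + Polynomial.C (α0 : ZMod q) with hp
  have hp0 : p ≠ 0 := by
    intro h0
    apply h
    have c2 : p.coeff 2 = (α2 : ZMod q) := by
      rw [hp]
      simp only [Polynomial.coeff_add, Polynomial.coeff_C_mul, Polynomial.coeff_X_pow,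
        Polynomial.coeff_X, Polynomial.coeff_C]
      norm_num
    have c1 : p.coeff 1 = (α1 : ZMod q) := by
      rw [hp]
      simp only [Polynomial.coeff_add, Polynomial.coeff_C_mul, Polynomial.coeff_X_pow,
        Polynomial.coeff_X, Polynomial.coeff_C]
      norm_num
    have c0 : p.coeff 0 = (α0 : ZMod q) := by
      rw [hp]
      simp only [Polynomial.coeff_add, Polynomial.coeff_C_mul, Polynomial.coeff_X_pow,
        Polynomial.coeff_X, Polynomial.coeff_C]
      norm_num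
    rw [h0] at c2 c1 c0
    simp only [Polynomial.coeff_zero] at c2 c1 c0
    exact ⟨(ZMod.intCast_zmod_eq_zero_iff_dvd _ _).1 c2.symm,
      (ZMod.intCast_zmod_eq_zero_iff_dvd _ _).1 c1.symm,
      (ZMod.intCast_zmod_eq_zero_iff_dvd _ _).1 c0.symm⟩
  have hdeg : p.natDegree ≤ 2 := Polynomial.natDegree_quadratic_le
  have hroots : p.roots.toFinset.card ≤ 2 :=
    ((Multiset.toFinset_card_le _).trans (Polynomial.card_roots' p)).trans hdeg
  refine le_trans ?_ hroots
  apply Finset.card_le_card_of_injOn (fun s : ℕ => (144 * (s : ZMod q) + (s0 : ZMod q)))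
  · intro s hs
    rw [Finset.mem_coe, Finset.mem_filter] at hs
    rw [Finset.mem_coe, Multiset.mem_toFinset, Polynomial.mem_roots hp0]
    have h1 := (ZMod.intCast_zmod_eq_zero_iff_dvd _ _).2 hs.2
    push_cast at h1
    rw [Polynomial.IsRoot, hp]
    simp only [Polynomial.eval_add, Polynomial.eval_mul, Polynomial.eval_C, Polynomial.eval_pow,
      Polynomial.eval_X]
    exact h1
  · intro s hs s' hs' heq
    rw [Finset.mem_coe, Finset.mem_filter, Finset.mem_range] at hs hs'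
    simp only at heq
    have h144 : (144 : ZMod q) ≠ 0 := by
      intro h0
      have h1 : ((144 : ℕ) : ZMod q) = 0 := by exact_mod_cast h0
      rw [ZMod.natCast_eq_zero_iff] at h1
      have h2 : q ∣ 2 ^ 4 * 3 ^ 2 := by simpa using h1
      rcases (Nat.Prime.dvd_mul hq).1 h2 with h3 | h3
      · have := Nat.le_of_dvd (by norm_num) (hq.dvd_of_dvd_pow h3); omega
      · have := Nat.le_of_dvd (by norm_num) (hq.dvd_of_dvd_pow h3); omega
    have h1 : (144 : ZMod q) * (s : ZMod q) = 144 * (s' : ZMod q) := add_right_cancel heq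
    have h2 : (s : ZMod q) = (s' : ZMod q) := mul_left_cancel₀ h144 h1
    rw [ZMod.natCast_eq_natCast_iff] at h2
    exact Nat.ModEq.eq_of_lt_of_lt h2 hs.1 hs'.1

/-- the family of conditions to be avoided -/
def badq (a b k x0 l0 s0 : ℤ) (q s : ℕ) : Prop :=
  (q : ℤ) ∣ Lq a b k x0 l0 (144 * s + s0) * Eq' a b k x0 l0 (144 * s + s0)

theorem per_badq (a b k x0 l0 s0 : ℤ) : Per (badq a b k x0 l0 s0) := by
  intro q s
  unfold badq
  apply prod_dvd_iff
  have h : ((s : ℕ) : ℤ) = q * ((s / q : ℕ) : ℤ) + ((s % q : ℕ) : ℤ) := by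
    exact_mod_cast (Nat.div_add_mod s q).symm
  exact ⟨144 * ((s / q : ℕ) : ℤ), by rw [h]; push_cast; ring⟩

theorem nb_badq (a b k x0 l0 s0 : ℤ) (hab : IsCoprime a b) (q : ℕ) (hq : q.Prime) (h4 : 4 < q)
    (hqk : ¬ (q : ℤ) ∣ k) : nb (badq a b k x0 l0 s0) q ≤ 4 := by
  classical
  have hqz : Prime (q : ℤ) := Nat.prime_iff_prime_int.1 hq
  have hnot : ¬ ((q : ℤ) ∣ a ∧ (q : ℤ) ∣ b) := by
    rintro ⟨h1, h2⟩
    exact hqz.not_isUnit (hab.isUnit_of_dvd' h1 h2)
  have h1 := quad_roots q hq h4 (a ^ 2 * k) (2 * a * x0 + b) l0 s0 (by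
    rintro ⟨e2, e1, -⟩
    have ha : (q : ℤ) ∣ a := by
      rcases hqz.dvd_or_dvd e2 with h | h
      · exact hqz.dvd_of_dvd_pow h
      · exact absurd h hqk
    have hb : (q : ℤ) ∣ b := by
      have h2 : (q : ℤ) ∣ 2 * a * x0 := Dvd.dvd.mul_right (Dvd.dvd.mul_left ha 2) x0
      have := dvd_sub e1 h2
      simpa using this
    exact hnot ⟨ha, hb⟩)
  have h2 := quad_roots q hq h4 (a ^ 3 * k) (a * (2 * a * x0 + b) + 2 * a ^ 2 * k)
    (a * k + a * l0 + 2 * a * x0 + b) s0 (by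
    rintro ⟨e2, -, e0⟩
    have ha : (q : ℤ) ∣ a := by
      rcases hqz.dvd_or_dvd e2 with h | h
      · exact hqz.dvd_of_dvd_pow h
      · exact absurd h hqk
    have hb : (q : ℤ) ∣ b := by
      have h2 : (q : ℤ) ∣ a * (k + l0 + 2 * x0) := Dvd.dvd.mul_right ha _
      have := dvd_sub e0 h2
      have e : a * k + a * l0 + 2 * a * x0 + b - a * (k + l0 + 2 * x0) = b := by ring
      rwa [e] at this
    exact hnot ⟨ha, hb⟩)
  unfold nb
  refine le_trans ?_ (add_le_add h1 h2)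
  refine le_trans ?_ (Finset.card_union_le _ _)
  apply Finset.card_le_card
  intro s hs
  rw [Finset.mem_filter] at hs
  rw [Finset.mem_union, Finset.mem_filter, Finset.mem_filter]
  rcases hqz.dvd_or_dvd hs.2 with h | h
  · left
    refine ⟨hs.1, ?_⟩
    have e : Lq a b k x0 l0 (144 * s + s0) = a ^ 2 * k * (144 * (s : ℤ) + s0) ^ 2 +
      (2 * a * x0 + b) * (144 * (s : ℤ) + s0) + l0 := by unfold Lq; ring
    rwa [e] at h
  · right
    refine ⟨hs.1, ?_⟩
    have e : Eq' a b k x0 l0 (144 * s + s0) = a ^ 3 * k * (144 * (s : ℤ) + s0) ^ 2 +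
      (a * (2 * a * x0 + b) + 2 * a ^ 2 * k) * (144 * (s : ℤ) + s0) +
      (a * k + a * l0 + 2 * a * x0 + b) := by unfold Eq' Lq X1; ring
    rwa [e] at h

end Pool.Agent.Lib.QuadParity
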