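import Mathlib
import Pool.Agent.Lib.QuadParity.Quad

/-!
Choice of the residue class modulo 144, existence of roots, and prime factor counts.
-/

set_option autoImplicit false

namespace Pool.Agent.Lib.QuadParity

open Finset

theorem dec16 : ∀ β c : ZMod 16, ∃ y : ZMod 16,
    (y ^ 2 + 2 * β * y + c) * ((y + 1) ^ 2 + 2 * β * (y + 1) + c) ≠ 0 := by decide +kernel

theorem dec9 : ∀ β c : ZMod 9, ∃ y : ZMod 9,
    (y ^ 2 + β * y + c) * ((y + 1) ^ 2 + β * (y + 1) + c) ≠ 0 := by decide +kernel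

/-- common part for the moduli 16 and 9 -/
theorem lift_choice (m : ℕ) (hm : m ≠ 0) (a b c k x0 l0 : ℤ) (h : qf a b c x0 = a * k * l0)
    (A K : ZMod m) (hA : (a : ZMod m) * A = 1) (hK : (k : ZMod m) * K = 1) (y : ZMod m)
    (hy : (y ^ 2 + ((b : ZMod m) * A * K) * y + (c : ZMod m) * A * K ^ 2) *
      ((y + 1) ^ 2 + ((b : ZMod m) * A * K) * (y + 1) + (c : ZMod m) * A * K ^ 2) ≠ 0) :
    ∃ u : ℤ, ¬ (m : ℤ) ∣ Lq a b k x0 l0 u * Eq' a b k x0 l0 u := by
  have := NeZero.mk hm
  obtain ⟨u, hu⟩ := ZMod.intCast_surjective (((k : ZMod m) * y - (x0 : ZMod m)) * A * K)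
  refine ⟨u, ?_⟩
  intro hdvd
  apply hy
  have h0 := (ZMod.intCast_zmod_eq_zero_iff_dvd _ _).2 hdvd
  have h1 := congrArg (Int.cast : ℤ → ZMod m) (id1 a b c k x0 l0 u h)
  have h2 := congrArg (Int.cast : ℤ → ZMod m) (id2 a b c k x0 l0 u h)
  unfold qf X1 at h1 h2
  push_cast at h0 h1 h2
  rw [hu] at h1 h2
  generalize (Lq a b k x0 l0 u : ZMod m) = L at h0 h1 h2
  generalize (Eq' a b k x0 l0 u : ZMod m) = E at h0 h1 h2
  generalize (a : ZMod m) = a' at *
  generalize (b : ZMod m) = b' at *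
  generalize (c : ZMod m) = c' at *
  generalize (k : ZMod m) = k' at *
  generalize (x0 : ZMod m) = x' at *
  have e0 : x' + a' * k' * ((k' * y - x') * A * K) = k' * y := by
    linear_combination (k' * y - x') * (k' * K) * hA + (k' * y - x') * hK
  rw [e0] at h1 h2
  set P0 := y ^ 2 + (b' * A * K) * y + c' * A * K ^ 2 with hP0
  set P1 := (y + 1) ^ 2 + (b' * A * K) * (y + 1) + c' * A * K ^ 2 with hP1
  have q1 : a' * k' ^ 2 * P0 = a' * (k' * y) ^ 2 + b' * (k' * y) + c' := by
    rw [hP0]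
    linear_combination (b' * k' * y) * (k' * K) * hA + (b' * k' * y) * hK +
      c' * (k' * K) ^ 2 * hA + c' * (k' * K + 1) * hK
  have q2 : a' * k' ^ 2 * P1 = a' * (k' * y + k') ^ 2 + b' * (k' * y + k') + c' := by
    rw [hP1]
    linear_combination (b' * k' * (y + 1)) * (k' * K) * hA + (b' * k' * (y + 1)) * hK +
      c' * (k' * K) ^ 2 * hA + c' * (k' * K + 1) * hK
  have z : a' ^ 2 * k' ^ 4 * (P0 * P1) = 0 := by
    calc a' ^ 2 * k' ^ 4 * (P0 * P1) = (a' * k' ^ 2 * P0) * (a' * k' ^ 2 * P1) := by ring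
      _ = (a' * k' * L) * (k' * E) := by rw [q1, q2, h1, h2]
      _ = a' * k' ^ 2 * (L * E) := by ring
      _ = 0 := by rw [h0, mul_zero]
  calc P0 * P1 = (a' * A) ^ 2 * (k' * K) ^ 4 * (P0 * P1) := by rw [hA, hK]; ring
    _ = A ^ 2 * K ^ 4 * (a' ^ 2 * k' ^ 4 * (P0 * P1)) := by ring
    _ = 0 := by rw [z, mul_zero]

theorem exists_inv (m : ℕ) (x : ℤ) (h : IsCoprime x (m : ℤ)) :
    ∃ A : ZMod m, (x : ZMod m) * A = 1 := by
  obtain ⟨u, v, huv⟩ := h
  refine ⟨(u : ZMod m), ?_⟩
  have := congrArg (Int.cast : ℤ → ZMod m) huv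
  push_cast at this
  rw [ZMod.natCast_self, mul_zero, add_zero] at this
  rw [mul_comm]; exact this

theorem odd_coprime_16 {x : ℤ} (hx : Odd x) : IsCoprime x ((16 : ℕ) : ℤ) := by
  have h : IsCoprime x (2 : ℤ) := by
    obtain ⟨j, hj⟩ := hx
    exact ⟨1, -j, by rw [hj]; ring⟩
  have := h.pow_right (n := 4)
  norm_num at this ⊢
  exact this

theorem coprime_9 {x : ℤ} (hx : ¬ (3 : ℤ) ∣ x) : IsCoprime x ((9 : ℕ) : ℤ) := by
  have h : IsCoprime x (3 : ℤ) := by
    rw [isCoprime_comm]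
    exact (Int.prime_three.coprime_iff_not_dvd).2 hx
  have := h.pow_right (n := 2)
  norm_num at this ⊢
  exact this

theorem exists_u16 (a b c k x0 l0 : ℤ) (h : qf a b c x0 = a * k * l0) (hab : IsCoprime a b)
    (hpar : ¬ (Even (a + b) ∧ Even c)) (hk : Odd k) :
    ∃ u : ℤ, ¬ (16 : ℤ) ∣ Lq a b k x0 l0 u * Eq' a b k x0 l0 u := by
  have hodd : ∀ n : ℤ, Odd n → ¬ (16 : ℤ) ∣ n := by
    intro n hn hd
    rw [← Int.not_even_iff_odd] at hn
    apply hn
    exact even_iff_two_dvd.2 (dvd_trans (by norm_num) hd)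
  rcases Int.even_or_odd a with ha | ha
  · have hb : Odd b := by
      rw [← Int.not_even_iff_odd]
      intro hb
      have := hab.isUnit_of_dvd' (even_iff_two_dvd.1 ha) (even_iff_two_dvd.1 hb)
      exact absurd this (by decide)
    obtain ⟨a1, ha1⟩ := ha
    obtain ⟨b1, hb1⟩ := hb
    refine ⟨l0 + 1, hodd _ ?_⟩
    apply Odd.mul
    · unfold Lq
      subst ha1 hb1
      rcases Int.even_or_odd' l0 with ⟨j, hj | hj⟩
      · subst hj
        exact ⟨j + 2 * a1 * x0 * (2 * j + 1) + b1 * (2 * j + 1) + j + 2 * a1 ^ 2 * k * (2 * j + 1) ^ 2,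
          by ring⟩
      · subst hj
        refine ⟨j + (2 * (a1 + a1) * x0 + (2 * b1 + 1)) * (j + 1) +
          2 * a1 ^ 2 * k * (2 * j + 2) ^ 2, by ring⟩
    · unfold Eq' X1
      subst ha1 hb1
      exact ⟨a1 * (k + Lq (a1 + a1) (2 * b1 + 1) k x0 l0 (l0 + 1)) +
        2 * a1 * (x0 + (a1 + a1) * k * (l0 + 1)) + b1, by ring⟩
  · rcases Int.even_or_odd b with hb | hb
    · obtain ⟨A, hA⟩ := exists_inv 16 a (odd_coprime_16 ha)
      obtain ⟨K, hK⟩ := exists_inv 16 k (odd_coprime_16 hk)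
      obtain ⟨b1, hb1⟩ := hb
      obtain ⟨y, hy⟩ := dec16 ((b1 : ZMod 16) * A * K) ((c : ZMod 16) * A * K ^ 2)
      have := lift_choice 16 (by norm_num) a b c k x0 l0 h A K hA hK y (by
        have e : (b : ZMod 16) * A * K = 2 * ((b1 : ZMod 16) * A * K) := by
          rw [hb1]; push_cast; ring
        rw [e]; exact hy)
      exact_mod_cast this
    · have hc : Odd c := by
        rw [← Int.not_even_iff_odd]
        intro hc
        exact hpar ⟨ha.add_odd hb, hc⟩
      have hf : ∀ x : ℤ, Odd (qf a b c x) := by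
        intro x
        unfold qf
        rcases Int.even_or_odd x with hx | hx
        · apply Even.add_odd _ hc
          apply Even.add
          · exact (hx.pow_of_ne_zero (by norm_num)).mul_left a
          · exact hx.mul_left b
        · apply Even.add_odd _ hc
          exact (ha.mul (hx.pow)).add_odd (hb.mul hx)
      refine ⟨0, hodd _ ?_⟩
      apply Odd.mul
      · have h1 := hf (X1 a k x0 0)
        rw [id1 a b c k x0 l0 0 h] at h1
        exact (Int.odd_mul.1 h1).2
      · have h1 := hf (X1 a k x0 0 + k)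
        rw [id2 a b c k x0 l0 0 h] at h1
        exact (Int.odd_mul.1 h1).2

theorem exists_u9 (a b c k x0 l0 : ℤ) (h : qf a b c x0 = a * k * l0) (hab : IsCoprime a b)
    (hk : ¬ (3 : ℤ) ∣ k) :
    ∃ u : ℤ, ¬ (9 : ℤ) ∣ Lq a b k x0 l0 u * Eq' a b k x0 l0 u := by
  by_cases ha : (3 : ℤ) ∣ a
  · have hb : ¬ (3 : ℤ) ∣ b := by
      intro hb
      have := hab.isUnit_of_dvd' ha hb
      exact absurd this (by decide)
    refine ⟨b * (1 - l0), ?_⟩
    intro hd
    have hd3 : (3 : ℤ) ∣ Lq a b k x0 l0 (b * (1 - l0)) * Eq' a b k x0 l0 (b * (1 - l0)) :=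
      dvd_trans (by norm_num) hd
    obtain ⟨a1, ha1⟩ := ha
    rcases Int.prime_three.dvd_or_dvd hd3 with h1 | h1
    · -- L = l0 + b^2 (1 - l0) mod 3
      have hb2 : (3 : ℤ) ∣ b ^ 2 - 1 := by
        have : b % 3 = 1 ∨ b % 3 = 2 := by omega
        rcases this with h2 | h2
        · have h3 : (3 : ℤ) ∣ b - 1 := by omega
          have e : b ^ 2 - 1 = (b - 1) * (b + 1) := by ring
          rw [e]; exact Dvd.dvd.mul_right h3 _
        · have h3 : (3 : ℤ) ∣ b + 1 := by omega
          have e : b ^ 2 - 1 = (b - 1) * (b + 1) := by ring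
          rw [e]; exact Dvd.dvd.mul_left h3 _
      obtain ⟨d, hd'⟩ := hb2
      obtain ⟨e, he⟩ := h1
      unfold Lq at he
      rw [ha1] at he
      have h4 : (3 : ℤ) ∣ 1 := by
        refine ⟨e - d * (1 - l0) - 2 * a1 * x0 * (b * (1 - l0)) -
          3 * a1 ^ 2 * k * (b * (1 - l0)) ^ 2, ?_⟩
        linear_combination he - (1 - l0) * hd'
      norm_num at h4
    · apply hb
      obtain ⟨e, he⟩ := h1
      unfold Eq' X1 at he
      rw [ha1] at he
      refine ⟨e - a1 * (k + Lq (3 * a1) b k x0 l0 (b * (1 - l0))) -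
        2 * a1 * (x0 + 3 * a1 * k * (b * (1 - l0))), ?_⟩
      linear_combination he
  · obtain ⟨A, hA⟩ := exists_inv 9 a (coprime_9 ha)
    obtain ⟨K, hK⟩ := exists_inv 9 k (coprime_9 hk)
    obtain ⟨y, hy⟩ := dec9 ((b : ZMod 9) * A * K) ((c : ZMod 9) * A * K ^ 2)
    have := lift_choice 9 (by norm_num) a b c k x0 l0 h A K hA hK y hy
    exact_mod_cast this

theorem exists_s0 (a b c k x0 l0 : ℤ) (h : qf a b c x0 = a * k * l0) (hab : IsCoprime a b)
    (hpar : ¬ (Even (a + b) ∧ Even c)) (hk : Odd k) (hk3 : ¬ (3 : ℤ) ∣ k) :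
    ∃ s0 : ℤ, 144 ≤ s0 ∧ s0 < 288 ∧ ∀ s : ℤ,
      ¬ (16 : ℤ) ∣ Lq a b k x0 l0 (144 * s + s0) * Eq' a b k x0 l0 (144 * s + s0) ∧
      ¬ (9 : ℤ) ∣ Lq a b k x0 l0 (144 * s + s0) * Eq' a b k x0 l0 (144 * s + s0) := by
  obtain ⟨u, hu⟩ := exists_u16 a b c k x0 l0 h hab hpar hk
  obtain ⟨w, hw⟩ := exists_u9 a b c k x0 l0 h hab hk3
  refine ⟨(81 * u + 64 * w) % 144 + 144, ?_, ?_, ?_⟩
  · have := Int.emod_nonneg (81 * u + 64 * w) (show (144 : ℤ) ≠ 0 by norm_num); omega
  · have := Int.emod_lt_of_pos (81 * u + 64 * w) (show (0 : ℤ) < 144 by norm_num); omega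
  · intro s
    constructor
    · rw [prod_dvd_iff a b k x0 l0 16 _ u (by omega)]; exact hu
    · rw [prod_dvd_iff a b k x0 l0 9 _ w (by omega)]; exact hw

/-- numbers without medium prime factors have few prime factors -/
theorem rough_bound (n z : ℕ) (hn : n ≠ 0) (h16 : ¬ 16 ∣ n) (h9 : ¬ 9 ∣ n) (hz : 1 ≤ z)
    (hq : ∀ q : ℕ, q.Prime → 4 < q → q ∣ n → z ≤ q) :
    ∃ m : ℕ, ArithmeticFunction.cardFactors n ≤ 4 + m ∧ z ^ m ≤ n := by
  classical
  refine ⟨∑ p ∈ n.primeFactors.filter (fun p => 4 < p), n.factorization p, ?_, ?_⟩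
  · rw [ArithmeticFunction.cardFactors_eq_sum_factorization, Finsupp.sum,
      Nat.support_factorization,
      ← Finset.sum_filter_add_sum_filter_not n.primeFactors (fun p => 4 < p), add_comm]
    apply add_le_add_left
    have hsub : n.primeFactors.filter (fun p => ¬ 4 < p) ⊆ {2, 3} := by
      intro p hp
      rw [Finset.mem_filter] at hp
      have hpp := Nat.prime_of_mem_primeFactors hp.1
      have h1 := hp.2
      have h2 := hpp.two_le
      rw [Finset.mem_insert, Finset.mem_singleton]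
      by_contra hcon
      have : p = 4 := by omega
      subst this
      exact absurd hpp (by norm_num)
    calc ∑ p ∈ n.primeFactors.filter (fun p => ¬ 4 < p), n.factorization p ≤
        ∑ p ∈ ({2, 3} : Finset ℕ), n.factorization p := Finset.sum_le_sum_of_subset hsub
      _ = n.factorization 2 + n.factorization 3 := by rw [Finset.sum_pair (by norm_num)]
      _ ≤ 4 := by
        have h2 : ¬ 4 ≤ n.factorization 2 := by
          intro h
          exact h16 ((Nat.prime_two.pow_dvd_iff_le_factorization hn).2 h)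
        have h3 : ¬ 2 ≤ n.factorization 3 := by
          intro h
          exact h9 ((Nat.prime_three.pow_dvd_iff_le_factorization hn).2 h)
        omega
  · rw [← Finset.prod_pow_eq_pow_sum]
    calc ∏ p ∈ n.primeFactors.filter (fun p => 4 < p), z ^ n.factorization p ≤
        ∏ p ∈ n.primeFactors.filter (fun p => 4 < p), p ^ n.factorization p := by
          apply Finset.prod_le_prod'
          intro p hp
          rw [Finset.mem_filter] at hp
          exact Nat.pow_le_pow_left (hq p (Nat.prime_of_mem_primeFactors hp.1) hp.2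
            (Nat.dvd_of_mem_primeFactors hp.1)) _
      _ ≤ ∏ p ∈ n.primeFactors, p ^ n.factorization p := by
          apply Finset.prod_le_prod_of_subset_of_one_le' (Finset.filter_subset _ _)
          intro p hp _
          exact Nat.one_le_pow _ _ (Nat.pos_of_mem_primeFactors hp)
      _ = n := by
          have := Nat.prod_factorization_pow_eq_self hn
          rwa [Finsupp.prod, Nat.support_factorization] at this

theorem card_divisors_le (n : ℕ) (hn : n ≠ 0) :
    n.divisors.card ≤ 2 ^ ArithmeticFunction.cardFactors n := by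
  rw [Nat.card_divisors hn, ArithmeticFunction.cardFactors_eq_sum_factorization, Finsupp.sum,
    Nat.support_factorization, ← Finset.prod_pow_eq_pow_sum]
  apply Finset.prod_le_prod'
  intro p _
  exact Nat.lt_two_pow_self

end Pool.Agent.Lib.QuadParity
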