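import Mathlib
import Pool.Agent.Lib.QuadParity.Small

/-!
Roots of the quadratic polynomial modulo `a k`.
-/

set_option autoImplicit false

namespace Pool.Agent.Lib.QuadParity

open Finset
open scoped NumberTheorySymbols

theorem qf_sub (a b c x y : ℤ) : (x - y) ∣ qf a b c x - qf a b c y :=
  ⟨a * (x + y) + b, by unfold qf; ring⟩

theorem qf_dvd_of (a b c m x y : ℤ) (h : m ∣ x - y) (hy : m ∣ qf a b c y) : m ∣ qf a b c x := by
  have := dvd_add (h.trans (qf_sub a b c x y)) hy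
  simpa using this

theorem root_mod_a (a b c : ℤ) (hab : IsCoprime a b) : ∃ r : ℤ, a ∣ qf a b c r := by
  obtain ⟨u, v, huv⟩ := hab
  refine ⟨-c * v, c ^ 2 * v ^ 2 + c * u, ?_⟩
  unfold qf
  linear_combination -c * huv

theorem root_mod_k (a b c : ℤ) (k : ℕ) (hk : k.Prime) (hΔ : b ^ 2 - 4 * a * c ≠ 0)
    (hmod : k ≡ 1 [MOD 4 * (b ^ 2 - 4 * a * c).natAbs]) (h2a : ¬ (k : ℤ) ∣ 2 * a)
    (hkΔ : ¬ (k : ℤ) ∣ b ^ 2 - 4 * a * c) : ∃ r : ℤ, (k : ℤ) ∣ qf a b c r := by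
  set Δ := b ^ 2 - 4 * a * c with hΔdef
  have hF := Fact.mk hk
  have hΔpos : 0 < Δ.natAbs := Int.natAbs_pos.2 hΔ
  have hodd : Odd k := by
    rcases hk.eq_two_or_odd' with h | h
    · exfalso
      apply h2a
      rw [h]
      exact Dvd.intro a (by norm_num)
    · exact h
  have h1 : k % (4 * Δ.natAbs) = 1 := by
    have : 1 % (4 * Δ.natAbs) = 1 := Nat.mod_eq_of_lt (by omega)
    rw [← this]; exact hmod
  have h2 : jacobiSym Δ k = 1 := by
    rw [jacobiSym.mod_right Δ hodd, h1, jacobiSym.one_right]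
  rw [← jacobiSym.legendreSym.to_jacobiSym] at h2
  have hΔ0 : (Δ : ZMod k) ≠ 0 := by
    intro h0
    exact hkΔ ((ZMod.intCast_zmod_eq_zero_iff_dvd _ _).1 h0)
  obtain ⟨y, hy⟩ := (legendreSym.eq_one_iff k hΔ0).1 h2
  have h2a0 : ((2 : ZMod k) * (a : ZMod k)) ≠ 0 := by
    intro h0
    apply h2a
    apply (ZMod.intCast_zmod_eq_zero_iff_dvd _ _).1
    push_cast; exact h0
  have h20 : (2 : ZMod k) ≠ 0 := left_ne_zero_of_mul h2a0
  obtain ⟨r, hr⟩ := ZMod.intCast_surjective ((y - (b : ZMod k)) / (2 * (a : ZMod k)))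
  refine ⟨r, ?_⟩
  apply (ZMod.intCast_zmod_eq_zero_iff_dvd _ _).1
  unfold qf
  push_cast
  have hr' : 2 * (a : ZMod k) * (r : ZMod k) = y - b := by
    rw [hr]; exact mul_div_cancel₀ _ h2a0
  have hy' : (b : ZMod k) ^ 2 - 4 * a * c = y * y := by
    rw [← hy, hΔdef]; push_cast; ring
  have h3 : (2 * 2 * (a : ZMod k)) * ((a : ZMod k) * (r : ZMod k) ^ 2 + b * r + c) = 0 := by
    linear_combination (2 * (a : ZMod k) * r + y + b) * hr' - hy'
  have h4 : (2 * 2 * (a : ZMod k)) ≠ 0 := by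
    rw [mul_assoc]
    exact mul_ne_zero h20 h2a0
  exact (mul_eq_zero.1 h3).resolve_left h4

theorem root_mod_ak (a b c : ℤ) (ha : 0 < a) (hab : IsCoprime a b) (k : ℕ) (hk : k.Prime)
    (hΔ : b ^ 2 - 4 * a * c ≠ 0)
    (hmod : k ≡ 1 [MOD 4 * (b ^ 2 - 4 * a * c).natAbs]) (h2a : ¬ (k : ℤ) ∣ 2 * a)
    (hkΔ : ¬ (k : ℤ) ∣ b ^ 2 - 4 * a * c) :
    ∃ x0 l0 : ℤ, 0 ≤ x0 ∧ x0 < a * k ∧ qf a b c x0 = a * k * l0 := by
  obtain ⟨r, hr⟩ := root_mod_a a b c hab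
  obtain ⟨ρ, hρ⟩ := root_mod_k a b c k hk hΔ hmod h2a hkΔ
  have hkz : Prime (k : ℤ) := Nat.prime_iff_prime_int.1 hk
  have hka : ¬ (k : ℤ) ∣ a := fun h => h2a (Dvd.dvd.mul_left h 2)
  have hcop : IsCoprime a (k : ℤ) := by
    rw [isCoprime_comm]
    exact (hkz.coprime_iff_not_dvd).2 hka
  obtain ⟨u, v, huv⟩ := id hcop
  set x := ρ * (u * a) + r * (v * k) with hx
  have hxr : a ∣ x - r := ⟨(ρ - r) * u, by rw [hx]; linear_combination r * huv⟩
  have hxρ : (k : ℤ) ∣ x - ρ := ⟨(r - ρ) * v, by rw [hx]; linear_combination ρ * huv⟩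
  have hpos : 0 < a * (k : ℤ) := mul_pos ha (by exact_mod_cast hk.pos)
  set x0 := x % (a * k) with hx0
  have hsub : a * (k : ℤ) ∣ x0 - x := by
    rw [hx0]
    refine ⟨-(x / (a * k)), ?_⟩
    have := Int.emod_add_mul_ediv x (a * k)
    linear_combination this
  have hax : a ∣ qf a b c x0 := by
    apply qf_dvd_of a b c a x0 r _ hr
    have h1 : a ∣ x0 - x := (Dvd.intro _ rfl).trans hsub
    have := dvd_add h1 hxr
    simpa using this
  have hkx : (k : ℤ) ∣ qf a b c x0 := by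
    apply qf_dvd_of a b c k x0 ρ _ hρ
    have h1 : (k : ℤ) ∣ x0 - x := (Dvd.intro_left _ rfl).trans hsub
    have := dvd_add h1 hxρ
    simpa using this
  obtain ⟨l0, hl0⟩ := hcop.mul_dvd hax hkx
  exact ⟨x0, l0, Int.emod_nonneg _ hpos.ne', Int.emod_lt_of_pos _ hpos, hl0⟩

end Pool.Agent.Lib.QuadParity
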