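import Mathlib
import Pool.Agent.Lib.QuadParity.Roots
import Pool.Agent.Lib.QuadParity.Asym

/-!
One prime `k` and one sifted parameter `s` give a value of `f` with the right parity and few
prime factors.
-/

set_option autoImplicit false

namespace Pool.Agent.Lib.QuadParity

open Finset

/-- the number of prime factors, with multiplicity, of the absolute value -/
def Om (n : ℤ) : ℕ := ArithmeticFunction.cardFactors n.natAbs

theorem Om_mul {m n : ℤ} (hm : m ≠ 0) (hn : n ≠ 0) : Om (m * n) = Om m + Om n := by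
  unfold Om
  rw [Int.natAbs_mul, ArithmeticFunction.cardFactors_mul (Int.natAbs_ne_zero.2 hm)
    (Int.natAbs_ne_zero.2 hn)]

theorem Om_prime {k : ℕ} (hk : k.Prime) : Om (k : ℤ) = 1 := by
  unfold Om
  rw [Int.natAbs_natCast]
  exact ArithmeticFunction.cardFactors_apply_prime hk

theorem pair_main (a b c : ℤ) (ha : 0 < a) (k : ℕ) (hk : k.Prime) (x l E : ℤ) (hx : 0 < x)
    (hl : 0 < l) (hE : 0 < E) (h1 : qf a b c x = a * k * l) (h2 : qf a b c (x + k) = k * E)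
    (h3 : qf a b c (x + l) = l * E) (h16 : ¬ (16 : ℤ) ∣ l * E) (h9 : ¬ (9 : ℤ) ∣ l * E)
    (z : ℕ) (hz : 1 ≤ z)
    (hrough : ∀ q : ℕ, q.Prime → 4 < q → (q : ℤ) ∣ l * E → z ≤ q) :
    ∃ m : ℕ, ((z : ℤ) ^ m ≤ l * E) ∧ ∃ j ∈ Finset.range 3, ∃ (t : ℤ) (d : ℕ), 0 < t ∧
      t ≤ x + k + l ∧
      0 < qf a b c t ∧ Om (qf a b c t) ≤ Om a + 5 + m ∧ Om (qf a b c t) % 2 = Om a % 2 ∧
      d ∣ (qf a b c t).natAbs ∧
      ((j = 0 ∧ t = x ∧ d = k) ∨ (j = 1 ∧ t = x + k ∧ d = k) ∨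
        (j = 2 ∧ t = x + l ∧ d = l.natAbs)) := by
  have hkpos : (0 : ℤ) < k := by exact_mod_cast hk.pos
  have hlE : 0 < l * E := mul_pos hl hE
  have hn : (l * E).natAbs ≠ 0 := Int.natAbs_ne_zero.2 hlE.ne'
  obtain ⟨m, hm1, hm2⟩ := rough_bound (l * E).natAbs z hn (by
      intro h; apply h16
      have := Int.natCast_dvd.2 h
      exact_mod_cast this) (by
      intro h; apply h9
      have := Int.natCast_dvd.2 h
      exact_mod_cast this) hz (by
      intro q hq h4 hd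
      exact hrough q hq h4 (Int.natCast_dvd.2 hd))
  have hΩ : Om l + Om E ≤ 4 + m := by
    rw [← Om_mul hl.ne' hE.ne']; exact hm1
  refine ⟨m, ?_, ?_⟩
  · have h : ((z ^ m : ℕ) : ℤ) ≤ ((l * E).natAbs : ℤ) := by exact_mod_cast hm2
    rw [Int.natAbs_of_nonneg hlE.le] at h
    exact_mod_cast h
  have e1 : Om (qf a b c x) = Om a + 1 + Om l := by
    rw [h1, Om_mul (mul_pos ha hkpos).ne' hl.ne', Om_mul ha.ne' hkpos.ne', Om_prime hk]
  have e2 : Om (qf a b c (x + k)) = 1 + Om E := by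
    rw [h2, Om_mul hkpos.ne' hE.ne', Om_prime hk]
  have e3 : Om (qf a b c (x + l)) = Om l + Om E := by
    rw [h3, Om_mul hl.ne' hE.ne']
  by_cases hα : Om l % 2 = 1
  · refine ⟨0, by simp, x, k, hx, by linarith, ?_, ?_, ?_, ?_, Or.inl ⟨rfl, rfl, rfl⟩⟩
    · rw [h1]; positivity
    · rw [e1]; omega
    · rw [e1]; omega
    · rw [h1]
      apply Int.natCast_dvd.1
      exact ⟨a * l, by ring⟩
  · by_cases hβ : (1 + Om E) % 2 = Om a % 2
    · refine ⟨1, by simp, x + k, k, by linarith, by linarith, ?_, ?_, ?_, ?_,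
        Or.inr (Or.inl ⟨rfl, rfl, rfl⟩)⟩
      · rw [h2]; positivity
      · rw [e2]; omega
      · rw [e2]; omega
      · rw [h2]
        apply Int.natCast_dvd.1
        exact ⟨E, by ring⟩
    · refine ⟨2, by simp, x + l, l.natAbs, by linarith, by linarith, ?_, ?_, ?_, ?_,
        Or.inr (Or.inr ⟨rfl, rfl, rfl⟩)⟩
      · rw [h3]; positivity
      · rw [e3]; omega
      · rw [e3]; omega
      · rw [h3]
        exact Int.natAbs_dvd_natAbs.2 (Dvd.intro _ rfl)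

/-- the data attached to a prime `k` -/
def Data (a b c : ℤ) (k : ℕ) (x0 l0 s0 : ℤ) : Prop :=
  0 ≤ x0 ∧ x0 < a * k ∧ qf a b c x0 = a * k * l0 ∧ 144 ≤ s0 ∧ s0 < 288 ∧ ∀ s : ℤ,
      ¬ (16 : ℤ) ∣ Lq a b k x0 l0 (144 * s + s0) * Eq' a b k x0 l0 (144 * s + s0) ∧
      ¬ (9 : ℤ) ∣ Lq a b k x0 l0 (144 * s + s0) * Eq' a b k x0 l0 (144 * s + s0)

theorem data_exists (a b c : ℤ) (ha : 0 < a) (hab : IsCoprime a b)
    (hpar : ¬ (Even (a + b) ∧ Even c)) (hΔ : b ^ 2 - 4 * a * c ≠ 0) (k : ℕ) (hk : k.Prime)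
    (h3 : 3 < k) (hmod : k ≡ 1 [MOD 4 * (b ^ 2 - 4 * a * c).natAbs])
    (hbig : 2 * a.natAbs * (b ^ 2 - 4 * a * c).natAbs < k) :
    ∃ x0 l0 s0 : ℤ, Data a b c k x0 l0 s0 := by
  have hΔpos : 0 < (b ^ 2 - 4 * a * c).natAbs := Int.natAbs_pos.2 hΔ
  have hapos : 0 < a.natAbs := Int.natAbs_pos.2 ha.ne'
  obtain ⟨x0, l0, h1, h2, h4⟩ := root_mod_ak a b c ha hab k hk hΔ hmod (by
      intro h
      have h5 := Int.natCast_dvd.1 h
      have h6 := Nat.le_of_dvd (by rw [Int.natAbs_mul]; positivity) h5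
      rw [Int.natAbs_mul] at h6
      have h7 : (2 : ℤ).natAbs = 2 := rfl
      rw [h7] at h6
      have h8 : 2 * a.natAbs ≤ 2 * a.natAbs * (b ^ 2 - 4 * a * c).natAbs :=
        Nat.le_mul_of_pos_right _ hΔpos
      omega) (by
      intro h
      have h5 := Int.natCast_dvd.1 h
      have h6 := Nat.le_of_dvd hΔpos h5
      have h8 : (b ^ 2 - 4 * a * c).natAbs ≤ 2 * a.natAbs * (b ^ 2 - 4 * a * c).natAbs :=
        Nat.le_mul_of_pos_left _ (by omega)
      omega)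
  have hkodd : Odd (k : ℤ) := by
    rw [Int.odd_coe_nat]
    exact hk.odd_of_ne_two (by omega)
  have hk3 : ¬ (3 : ℤ) ∣ k := by
    intro h
    have h5 : 3 ∣ k := by exact_mod_cast h
    have := (Nat.prime_dvd_prime_iff_eq Nat.prime_three hk).1 h5
    omega
  obtain ⟨s0, h5, h6, h7⟩ := exists_s0 a b c k x0 l0 h4 hab hpar hkodd hk3
  exact ⟨x0, l0, s0, h1, h2, h4, h5, h6, h7⟩

/-- a bound for quadratic polynomials -/
theorem qf_le (a b c x : ℤ) (_ha : 0 < a) (hx : 1 ≤ x) :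
    qf a b c x ≤ (a + |b| + |c|) * x ^ 2 := by
  unfold qf
  have h1 : b * x ≤ |b| * x ^ 2 := by
    calc b * x ≤ |b| * x := mul_le_mul_of_nonneg_right (le_abs_self b) (by linarith)
      _ ≤ |b| * x ^ 2 := mul_le_mul_of_nonneg_left (by nlinarith) (abs_nonneg b)
  have h2 : c ≤ |c| * x ^ 2 := by
    calc c ≤ |c| * 1 := by rw [mul_one]; exact le_abs_self c
      _ ≤ |c| * x ^ 2 := mul_le_mul_of_nonneg_left (by nlinarith) (abs_nonneg c)
  nlinarith

theorem qf_pos (a b c x : ℤ) (ha : 0 < a) (hx : |b| + |c| + 1 ≤ x) : 0 < qf a b c x := by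
  unfold qf
  have hb0 := abs_nonneg b
  have hc0 := abs_nonneg c
  have hx1 : 1 ≤ x := by linarith
  have h1 : -(|b| * x) ≤ b * x := by
    have := mul_le_mul_of_nonneg_right (neg_abs_le b) (show 0 ≤ x by linarith)
    linarith
  have h2 : -(|c| * x) ≤ c := by
    have h3 := neg_abs_le c
    nlinarith
  have h3 : x ^ 2 ≤ a * x ^ 2 := by nlinarith [sq_nonneg x]
  nlinarith

theorem size_bounds (F a k x l W : ℤ) (hF : 1 ≤ F) (ha : 1 ≤ a) (hk : 1 ≤ k) (hW : 1 ≤ W)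
    (hx : 0 < x) (hxW : x ≤ a * k * W) (hq : a * k * l ≤ F * x ^ 2) :
    x ≤ 2 * F * a * k * W ^ 2 ∧ x + k ≤ 2 * F * a * k * W ^ 2 ∧ x + l ≤ 2 * F * a * k * W ^ 2 := by
  have hak : 1 ≤ a * k := by nlinarith
  obtain ⟨G, hG⟩ : ∃ G : ℤ, G = a * k := ⟨_, rfl⟩
  rw [← hG] at hxW hq hak
  have hkG : k ≤ G := by rw [hG]; nlinarith
  have hlW : l ≤ F * G * W ^ 2 := by
    have h2 : x ^ 2 ≤ (G * W) ^ 2 := pow_le_pow_left₀ hx.le hxW 2
    have h3 : G * l ≤ G * (F * G * W ^ 2) := by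
      calc G * l ≤ F * x ^ 2 := hq
        _ ≤ F * (G * W) ^ 2 := mul_le_mul_of_nonneg_left h2 (by linarith)
        _ = _ := by ring
    exact le_of_mul_le_mul_left h3 (by linarith)
  have hW2 : W ≤ W ^ 2 := by nlinarith
  have hGW : G * W ≤ F * G * W ^ 2 := by
    have h1 : G * W ≤ G * W ^ 2 := mul_le_mul_of_nonneg_left hW2 (by linarith)
    have h2 : G * W ^ 2 ≤ F * (G * W ^ 2) := by
      have : 0 ≤ G * W ^ 2 := by positivity
      nlinarith
    linarith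
  have hkW : k ≤ G * W := by nlinarith
  have e : 2 * F * a * k * W ^ 2 = F * G * W ^ 2 + F * G * W ^ 2 := by rw [hG]; ring
  rw [e]
  refine ⟨by linarith, by linarith, by linarith⟩

theorem pair_props' (a b c : ℤ) (ha : 0 < a) (k : ℕ) (hk : k.Prime)
    (x0 l0 s0 : ℤ) (hD : Data a b c k x0 l0 s0) (hkb : |b| + |c| + 1 ≤ (k : ℤ)) (s : ℕ)
    (z : ℕ) (hz : 1 ≤ z)
    (hs2 : ∀ q : ℕ, q.Prime → 4 < q → q ≤ z → ¬ badq a b k x0 l0 s0 q s)
    (W : ℤ) (hW : 144 * s + s0 + 1 ≤ W) :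
    ∃ m : ℕ, ((z : ℤ) ^ m ≤ (a + |b| + |c|) * (2 * (a + |b| + |c|) * a * k * W ^ 2) ^ 2) ∧
      ∃ j ∈ Finset.range 3, ∃ (t : ℤ) (d : ℕ), 0 < t ∧
      t ≤ 2 * (a + |b| + |c|) * a * k * W ^ 2 ∧
      0 < qf a b c t ∧ Om (qf a b c t) ≤ Om a + 5 + m ∧ Om (qf a b c t) % 2 = Om a % 2 ∧
      d ∣ (qf a b c t).natAbs ∧
      ((j = 0 ∧ t = X1 a k x0 (144 * s + s0) ∧ d = k) ∨
       (j = 1 ∧ t = X1 a k x0 (144 * s + s0) + k ∧ d = k) ∨
        (j = 2 ∧ 0 < Lq a b k x0 l0 (144 * s + s0) ∧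
          t = X1 a k x0 (144 * s + s0) + Lq a b k x0 l0 (144 * s + s0) ∧
          d = (Lq a b k x0 l0 (144 * s + s0)).natAbs)) := by
  obtain ⟨d1, d2, d3, d4, d5, d6⟩ := hD
  have hkpos : (0 : ℤ) < k := by exact_mod_cast hk.pos
  have hk1 : (1 : ℤ) ≤ k := hkpos
  have h16 := (d6 s).1
  have h9 := (d6 s).2
  have hs2' : ∀ q : ℕ, q.Prime → 4 < q → q ≤ z → ¬ (q : ℤ) ∣
      Lq a b k x0 l0 (144 * s + s0) * Eq' a b k x0 l0 (144 * s + s0) := hs2
  have hs0 : (0 : ℤ) ≤ s := by positivity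
  obtain ⟨u, hu⟩ : ∃ u : ℤ, u = 144 * s + s0 := ⟨_, rfl⟩
  have hu1 : 1 ≤ u := by omega
  rw [← hu] at h16 h9 hs2' hW ⊢
  have i1 := id1 a b c k x0 l0 u d3
  have i2 := id2 a b c k x0 l0 u d3
  have i3 := id3 a b c k x0 l0 u d3
  have hxdef : X1 a k x0 u = x0 + a * k * u := rfl
  generalize X1 a k x0 u = x at *
  generalize Lq a b k x0 l0 u = l at *
  generalize Eq' a b k x0 l0 u = E at *
  have hb0 := abs_nonneg b
  have hc0 := abs_nonneg c
  have ha1 : 1 ≤ a := ha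
  have hak : (k : ℤ) ≤ a * k := by nlinarith
  have hxlow : |b| + |c| + 1 ≤ x := by
    have : a * k * 1 ≤ a * k * u := mul_le_mul_of_nonneg_left hu1 (by positivity)
    rw [hxdef]
    linarith
  have hxpos : 0 < x := by linarith
  have hq1 : 0 < qf a b c x := qf_pos a b c x ha hxlow
  have hl0 : 0 < l := by
    rw [i1] at hq1
    exact pos_of_mul_pos_right hq1 (by positivity)
  have hq2 : 0 < qf a b c (x + k) := qf_pos a b c _ ha (by linarith)
  have hE0 : 0 < E := by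
    rw [i2] at hq2
    exact pos_of_mul_pos_right hq2 (by positivity)
  obtain ⟨m, hm, j, hj, t, d, ht0, ht1, ht2, ht3, ht4, ht5, ht6⟩ := pair_main a b c ha k hk x l E
    hxpos hl0 hE0 i1 i2 i3 h16 h9 z hz (by
      intro q hq h4 hd
      by_contra hcon
      push Not at hcon
      exact hs2' q hq h4 hcon.le hd)
  have hW1 : 1 ≤ W := by linarith
  have hxW : x ≤ a * k * W := by
    have : a * k * (u + 1) ≤ a * k * W := mul_le_mul_of_nonneg_left hW (by positivity)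
    rw [hxdef]
    linarith
  have hql : a * k * l ≤ (a + |b| + |c|) * x ^ 2 := by
    rw [← i1]; exact qf_le a b c x ha (by linarith)
  have hF1 : 1 ≤ a + |b| + |c| := by linarith
  have hlE1 : l * E ≤ (a + |b| + |c|) * (x + l) ^ 2 := by
    rw [← i3]; exact qf_le a b c (x + l) ha (by linarith)
  generalize a + |b| + |c| = F at *
  obtain ⟨b1, b2, b3⟩ := size_bounds F a k x l W hF1 ha1 hk1 hW1 hxpos hxW hql
  have htB : t ≤ 2 * F * a * k * W ^ 2 := by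
    rcases ht6 with ⟨-, h, -⟩ | ⟨-, h, -⟩ | ⟨-, h, -⟩
    · rw [h]; exact b1
    · rw [h]; exact b2
    · rw [h]; exact b3
  have hxl0 : 0 ≤ x + l := by linarith
  have hlE : l * E ≤ F * (2 * F * a * k * W ^ 2) ^ 2 := by
    refine hlE1.trans ?_
    apply mul_le_mul_of_nonneg_left _ (by linarith)
    exact pow_le_pow_left₀ hxl0 b3 2
  refine ⟨m, hm.trans hlE, j, hj, t, d, ht0, htB, ht2, ht3, ht4, ht5, ?_⟩
  rcases ht6 with h | h | h
  · exact Or.inl h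
  · exact Or.inr (Or.inl h)
  · exact Or.inr (Or.inr ⟨h.1, hl0, h.2⟩)

end Pool.Agent.Lib.QuadParity
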