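import Mathlib
import Pool.Agent.Lib.MP_325d88_nt.PNTAP

/-!
Chebyshev type lower bound for the primes in the progression `1 mod m`.
-/

set_option autoImplicit false

namespace Pool.Agent.Lib.QuadParity

open Finset Filter Topology

/-- Chebyshev type lower bound in the progression `1 mod m` -/
theorem primes_ap (m : ℕ) (hm : 0 < m) : ∃ c : ℝ, 0 < c ∧ ∃ Y0 : ℕ, 2 ≤ Y0 ∧ ∀ Y : ℕ, Y0 ≤ Y →
    c * (Y / Real.log Y) ≤
      (((Finset.range (Y + 1)).filter (fun p => p.Prime ∧ p ≡ 1 [MOD m])).card : ℝ) := by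
  have h := Pool.Agent.MP_325d88_nt.pnt_ap m hm 1 (Nat.coprime_one_left m)
  have hφ : (0 : ℝ) < (Nat.totient m : ℝ) := by exact_mod_cast Nat.totient_pos.2 hm
  have h1 : (1 / (Nat.totient m : ℝ)) / 2 < 1 / (Nat.totient m : ℝ) := by
    have : 0 < 1 / (Nat.totient m : ℝ) := by positivity
    linarith
  obtain ⟨Y0, hY0⟩ := Filter.eventually_atTop.1 (h.eventually_const_lt h1)
  refine ⟨(1 / (Nat.totient m : ℝ)) / 2, by positivity, Y0 + 2, by omega, ?_⟩
  intro Y hY
  have h2 := hY0 Y (by omega)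
  have hY2 : (2 : ℝ) ≤ Y := by
    have : 2 ≤ Y := by omega
    exact_mod_cast this
  have hlog : 0 < Real.log Y := Real.log_pos (by linarith)
  have hY0' : (0 : ℝ) < Y := by linarith
  rw [lt_div_iff₀ hY0'] at h2
  rw [← mul_div_assoc, div_le_iff₀ hlog]
  exact h2.le

end Pool.Agent.Lib.QuadParity
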