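import Mathlib
import Pool.Agent.Lib.QuadParity.Pair

/-!
Counting values of `f` with the right parity and few prime factors.
-/

set_option autoImplicit false

namespace Pool.Agent.Lib.QuadParity

open Finset

/-- the arguments `t ≤ N` with `f(t) > 0`, at most `B` prime factors and the right parity -/
def goodT (a b c : ℤ) (B N : ℕ) : Finset ℕ :=
  (Finset.Icc 1 N).filter (fun t : ℕ => 0 < qf a b c t ∧ Om (qf a b c t) ≤ B ∧
    Om (qf a b c t) % 2 = Om a % 2)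

theorem X1_inj (a : ℤ) (ha : 0 < a) (k : ℕ) (hk : 0 < k) (x0 s0 : ℤ) (s s' : ℕ)
    (h : X1 a k x0 (144 * s + s0) = X1 a k x0 (144 * s' + s0)) : s = s' := by
  unfold X1 at h
  have hk' : (0 : ℤ) < k := by exact_mod_cast hk
  have h1 : a * k * 144 * (s : ℤ) = a * k * 144 * (s' : ℤ) := by linarith
  have h2 : a * k * 144 ≠ 0 := by positivity
  exact_mod_cast mul_left_cancel₀ h2 h1

theorem main_count (a b c : ℤ) (ha : 0 < a) (hab : IsCoprime a b)
    (hpar : ¬ (Even (a + b) ∧ Even c)) (hΔ : b ^ 2 - 4 * a * c ≠ 0) (N0 : ℕ)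
    (hN0 : ∀ n : ℕ, N0 ≤ n → ∀ bad : ℕ → ℕ → Prop, Per bad →
      (∀ q : ℕ, q.Prime → 4 < q → q ≤ 2 ^ (2 ^ n) → nb bad q ≤ 4) →
      (2 : ℝ) ^ (23 * 2 ^ n) ≤ 2 ^ (5 * n) * ((sifted bad n).card : ℝ))
    (n : ℕ) (hn : N0 ≤ n) (K : Finset ℕ) (hK1 : ∀ k ∈ K, k.Prime) (hK2 : ∀ k ∈ K, 3 < k)
    (hK3 : ∀ k ∈ K, k ≡ 1 [MOD 4 * (b ^ 2 - 4 * a * c).natAbs])
    (hK4 : ∀ k ∈ K, 2 * a.natAbs * (b ^ 2 - 4 * a * c).natAbs < k)
    (hK5 : ∀ k ∈ K, 2 ^ (2 ^ n) < k) (hK6 : ∀ k ∈ K, |b| + |c| + 1 ≤ (k : ℤ))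
    (N : ℕ) (hN : ∀ k ∈ K, 2 * (a + |b| + |c|) * a * k * (433 * 2 ^ (23 * 2 ^ n)) ^ 2 ≤ (N : ℤ))
    (B : ℕ) (hB : ∀ m : ℕ, ((2 : ℤ) ^ (2 ^ n)) ^ m ≤ (a + |b| + |c|) * (N : ℤ) ^ 2 →
      Om a + 5 + m ≤ B) :
    (K.card : ℝ) * (2 : ℝ) ^ (23 * 2 ^ n) ≤
      2 ^ (5 * n) * (((goodT a b c B N).card : ℝ) * (3 * 2 ^ B)) := by
  classical
  have hdata : ∀ k : ℕ, k ∈ K → ∃ x0 l0 s0 : ℤ, Data a b c k x0 l0 s0 := fun k hk =>
    data_exists a b c ha hab hpar hΔ k (hK1 k hk) (hK2 k hk) (hK3 k hk) (hK4 k hk)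
  choose! x0 l0 s0 hD using hdata
  set F := a + |b| + |c| with hF
  set z : ℕ := 2 ^ (2 ^ n) with hz
  set W : ℤ := 433 * 2 ^ (23 * 2 ^ n) with hW
  have hb0 := abs_nonneg b
  have hc0 := abs_nonneg c
  -- the sifted sets
  set Sk : ℕ → Finset ℕ := fun k => sifted (badq a b k (x0 k) (l0 k) (s0 k)) n with hSk
  set G : Finset (Σ _ : ℕ, ℕ) := K.sigma Sk with hG
  have hcardG : (K.card : ℝ) * (2 : ℝ) ^ (23 * 2 ^ n) ≤ 2 ^ (5 * n) * (G.card : ℝ) := by
    rw [hG, Finset.card_sigma]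
    push_cast
    rw [Finset.mul_sum, ← nsmul_eq_mul, ← Finset.sum_const]
    apply Finset.sum_le_sum
    intro k hk
    apply hN0 n hn
    · exact per_badq _ _ _ _ _ _
    · intro q hq h4 hqz
      apply nb_badq a b k (x0 k) (l0 k) (s0 k) hab q hq h4
      intro hd
      have h1 : q ∣ k := by exact_mod_cast hd
      have h2 := (Nat.prime_dvd_prime_iff_eq hq (hK1 k hk)).1 h1
      have h3 := hK5 k hk
      omega
  refine hcardG.trans ?_
  apply mul_le_mul_of_nonneg_left _ (by positivity)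
  -- the map
  set U : Finset (Σ _ : ℕ, ℕ × ℕ) := (goodT a b c B N).sigma
    (fun t => (Finset.range 3) ×ˢ (qf a b c t).natAbs.divisors) with hU
  have hcardU : (U.card : ℝ) ≤ ((goodT a b c B N).card : ℝ) * (3 * 2 ^ B) := by
    rw [hU, Finset.card_sigma]
    push_cast
    rw [← nsmul_eq_mul, ← Finset.sum_const]
    apply Finset.sum_le_sum
    intro t ht
    rw [Finset.card_product, Finset.card_range]
    push_cast
    apply mul_le_mul_of_nonneg_left _ (by norm_num)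
    unfold goodT at ht
    rw [Finset.mem_filter] at ht
    have h1 := card_divisors_le (qf a b c t).natAbs (Int.natAbs_ne_zero.2 ht.2.1.ne')
    have h2 : 2 ^ ArithmeticFunction.cardFactors (qf a b c t).natAbs ≤ 2 ^ B :=
      Nat.pow_le_pow_right (by norm_num) ht.2.2.1
    exact_mod_cast h1.trans h2
  refine le_trans ?_ hcardU
  have hprops : ∀ p : (Σ _ : ℕ, ℕ), p ∈ G → ∃ (j t d : ℕ), (⟨t, (j, d)⟩ : Σ _ : ℕ, ℕ × ℕ) ∈ U ∧
      ((j = 0 ∧ (t : ℤ) = X1 a p.1 (x0 p.1) (144 * p.2 + s0 p.1) ∧ d = p.1) ∨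
       (j = 1 ∧ (t : ℤ) = X1 a p.1 (x0 p.1) (144 * p.2 + s0 p.1) + p.1 ∧ d = p.1) ∨
        (j = 2 ∧ 0 < Lq a b p.1 (x0 p.1) (l0 p.1) (144 * p.2 + s0 p.1) ∧
          (t : ℤ) = X1 a p.1 (x0 p.1) (144 * p.2 + s0 p.1) +
            Lq a b p.1 (x0 p.1) (l0 p.1) (144 * p.2 + s0 p.1) ∧
          d = (Lq a b p.1 (x0 p.1) (l0 p.1) (144 * p.2 + s0 p.1)).natAbs)) := by
    rintro ⟨k, s⟩ hp
    rw [hG, Finset.mem_sigma] at hp
    obtain ⟨hk, hs⟩ := hp
    simp only at hk hs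
    rw [hSk, mem_sifted] at hs
    have hDk := hD k hk
    obtain ⟨m, hm, j, hj, t, d, ht0, htB, ht2, ht3, ht4, ht5, ht6⟩ := pair_props' a b c ha k
      (hK1 k hk) (x0 k) (l0 k) (s0 k) hDk (hK6 k hk) s z Nat.one_le_two_pow hs.2 W (by
        have h1 : (s : ℤ) + 1 ≤ 2 ^ (23 * 2 ^ n) := by
          have : s + 1 ≤ 2 ^ (23 * 2 ^ n) := hs.1
          exact_mod_cast this
        have h2 : s0 k < 288 := hDk.2.2.2.2.1
        have hSz : (1 : ℤ) ≤ 2 ^ (23 * 2 ^ n) := one_le_pow₀ (by norm_num)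
        rw [hW]; linarith)
    have hNk := hN k hk
    have htN : t ≤ (N : ℤ) := htB.trans hNk
    have hzm : ((2 : ℤ) ^ (2 ^ n)) ^ m ≤ F * (N : ℤ) ^ 2 := by
      have h1 : ((z : ℤ) ^ m) = ((2 : ℤ) ^ (2 ^ n)) ^ m := by rw [hz]; push_cast; rfl
      rw [← h1]
      refine hm.trans ?_
      apply mul_le_mul_of_nonneg_left _ (by linarith)
      apply pow_le_pow_left₀ _ hNk
      linarith
    have hBm := hB m hzm
    refine ⟨j, t.toNat, d, ?_, ?_⟩
    · have htt : ((t.toNat : ℕ) : ℤ) = t := Int.toNat_of_nonneg ht0.le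
      rw [hU, Finset.mem_sigma]
      simp only
      constructor
      · unfold goodT
        rw [Finset.mem_filter, Finset.mem_Icc, htt]
        refine ⟨⟨by omega, by omega⟩, ht2, by omega, ht4⟩
      · rw [Finset.mem_product, Nat.mem_divisors, htt]
        exact ⟨hj, ht5, Int.natAbs_ne_zero.2 ht2.ne'⟩
    · have htt : ((t.toNat : ℕ) : ℤ) = t := Int.toNat_of_nonneg ht0.le
      rw [htt]
      exact ht6
  choose! J T D hU1 hU2 using hprops
  have : G.card ≤ U.card := by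
    apply Finset.card_le_card_of_injOn (fun p => (⟨T p, (J p, D p)⟩ : Σ _ : ℕ, ℕ × ℕ))
    · intro p hp
      exact hU1 p hp
    · rintro ⟨k, s⟩ hp ⟨k', s'⟩ hp' heq
      have hp1 := hp
      have hp1' := hp'
      rw [Finset.mem_coe, hG, Finset.mem_sigma] at hp1 hp1'
      have hkK : k ∈ K := hp1.1
      have hkK' : k' ∈ K := hp1'.1
      have q1 := hU2 ⟨k, s⟩ hp
      have q2 := hU2 ⟨k', s'⟩ hp'
      simp only [Sigma.mk.injEq, heq_eq_eq, Prod.mk.injEq] at heq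
      obtain ⟨hT, hJ, hDd⟩ := heq
      rw [← hT, ← hJ, ← hDd] at q2
      generalize T ⟨k, s⟩ = t at q1 q2
      generalize J ⟨k, s⟩ = j at q1 q2
      generalize D ⟨k, s⟩ = d at q1 q2
      simp only at q1 q2
      have hkey : k = k' → X1 a k (x0 k) (144 * s + s0 k) = X1 a k' (x0 k') (144 * s' + s0 k') →
          (⟨k, s⟩ : Σ _ : ℕ, ℕ) = ⟨k', s'⟩ := by
        rintro rfl h
        rw [X1_inj a ha k (hK1 k hkK).pos (x0 k) (s0 k) s s' h]
      rcases q1 with ⟨hj, h1, h2⟩ | ⟨hj, h1, h2⟩ | ⟨hj, h0, h1, h2⟩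
      · rcases q2 with ⟨hj', h1', h2'⟩ | ⟨hj', h1', h2'⟩ | ⟨hj', h0', h1', h2'⟩
        · apply hkey (by omega)
          rw [← h1, ← h1']
        · omega
        · omega
      · rcases q2 with ⟨hj', h1', h2'⟩ | ⟨hj', h1', h2'⟩ | ⟨hj', h0', h1', h2'⟩
        · omega
        · have hkk : k = k' := by omega
          apply hkey hkk
          subst hkk
          linarith
        · omega
      · rcases q2 with ⟨hj', h1', h2'⟩ | ⟨hj', h1', h2'⟩ | ⟨hj', h0', h1', h2'⟩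
        · omega
        · omega
        · have hll : Lq a b k (x0 k) (l0 k) (144 * s + s0 k) =
              Lq a b k' (x0 k') (l0 k') (144 * s' + s0 k') := by omega
          have hxx : X1 a k (x0 k) (144 * s + s0 k) = X1 a k' (x0 k') (144 * s' + s0 k') := by
            linarith
          have e1 := id1 a b c k (x0 k) (l0 k) (144 * s + s0 k) (hD k hkK).2.2.1
          have e2 := id1 a b c k' (x0 k') (l0 k') (144 * s' + s0 k') (hD k' hkK').2.2.1
          rw [← hxx, ← hll] at e2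
          rw [e1] at e2
          have h3 := mul_right_cancel₀ h0.ne' e2
          have h4 := mul_left_cancel₀ ha.ne' h3
          exact hkey (by exact_mod_cast h4) hxx
  exact_mod_cast this

end Pool.Agent.Lib.QuadParity
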